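import Mathlib
import Pool.Agent.N604.MW.DMeas
import Pool.Agent.N277.KV_L1R

/-!
# Project KW (helper604), part DL1 (helper232): the mean of the product over the lower arcs
-/

set_option autoImplicit false

namespace Pool.Agent.N232.KW

open Finset MeasureTheory Pool.Agent.N604.MW
open Pool.Agent.N277.KV (lintegral_pi_prod jensen_sq)
open scoped ENNReal

/-- the absolute value -/
noncomputable def fd (k X : ℕ) (β a : ℝ) : ℝ≥0∞ := ENNReal.ofReal ‖TD k X a β‖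

lemma fd_meas2 (k X : ℕ) : Measurable fun p : ℝ × ℝ => fd k X p.2 p.1 :=
  (TD_measurable k X).norm.ennreal_ofReal

lemma fd_meas (k X : ℕ) (β : ℝ) : Measurable (fd k X β) :=
  Measurable.comp (g := fun p : ℝ × ℝ => fd k X p.2 p.1) (f := fun a => (a, β))
    (fd_meas2 k X) (by fun_prop)

/-- the mean of the absolute value -/
noncomputable def hd (k X : ℕ) (β : ℝ) : ℝ≥0∞ := ∫⁻ a, fd k X β a ∂G1

theorem swap_eq (s k X : ℕ) (I : Set ℝ) :
    ∫⁻ α, (∫⁻ β in I, ENNReal.ofReal (∏ i, ‖TD k X (α i) β‖)) ∂(GM s) =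
    ∫⁻ β in I, ∏ _i : Fin s, hd k X β := by
  have h1 : ∀ (α : Fin s → ℝ) (β : ℝ), ENNReal.ofReal (∏ i, ‖TD k X (α i) β‖) =
      ∏ i, fd k X β (α i) := by
    intro α β
    rw [ENNReal.ofReal_prod_of_nonneg fun i _ => norm_nonneg _]
    rfl
  simp only [h1]
  rw [lintegral_lintegral_swap]
  · refine lintegral_congr fun β => ?_
    unfold GM hd
    exact lintegral_pi_prod (fun _ : Fin s => G1) (fun _ => fd k X β) fun _ => fd_meas k X β
  · refine Measurable.aemeasurable ?_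
    refine Finset.measurable_prod _ fun i _ => ?_
    exact Measurable.comp (g := fun p : ℝ × ℝ => fd k X p.2 p.1)
      (f := fun p : (Fin s → ℝ) × ℝ => (p.1 i, p.2)) (fd_meas2 k X) (by fun_prop)

lemma hd_le_sqrt (k X : ℕ) (β : ℝ) (M : ℝ) (hM0 : 0 ≤ M)
    (hM : ∫⁻ a, ENNReal.ofReal (‖TD k X a β‖ ^ 2) ∂G1 ≤ ENNReal.ofReal (M ^ 2)) :
    hd k X β ≤ ENNReal.ofReal M := by
  have h1 : hd k X β ^ 2 ≤ ENNReal.ofReal M ^ 2 := by
    refine (jensen_sq _ _ (fd_meas k X β)).trans ?_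
    rw [← ENNReal.ofReal_pow hM0]
    refine le_trans (lintegral_mono fun a => ?_) hM
    rw [ENNReal.ofReal_pow (norm_nonneg _)]
    exact le_rfl
  exact (ENNReal.pow_le_pow_left_iff two_ne_zero).1 h1

/-- elementary -/
lemma one_add_rpow (y r : ℝ) (hy : 0 ≤ y) (hr : 0 ≤ r) : (1 + y) ^ r ≤ 2 ^ r * (1 + y ^ r) := by
  have h0 : 0 ≤ y ^ r := Real.rpow_nonneg hy r
  rcases le_total y 1 with h | h
  · calc (1 + y) ^ r ≤ 2 ^ r := Real.rpow_le_rpow (by linarith) (by linarith) hr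
      _ = 2 ^ r * 1 := (mul_one _).symm
      _ ≤ 2 ^ r * (1 + y ^ r) := mul_le_mul_of_nonneg_left (by linarith) (by positivity)
  · calc (1 + y) ^ r ≤ (2 * y) ^ r := Real.rpow_le_rpow (by linarith) (by linarith) hr
      _ = 2 ^ r * y ^ r := Real.mul_rpow zero_le_two hy
      _ ≤ 2 ^ r * (1 + y ^ r) := mul_le_mul_of_nonneg_left (by linarith) (by positivity)

/-- the integral of `|β| ^ (-r)` -/
lemma int_rpow (η0 ηm r B : ℝ) (h0 : 0 < η0) (hr : 1 < r) (hB : 0 ≤ B) :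
    ∫⁻ β in Arc η0 ηm, ENNReal.ofReal (B * |β| ^ (-r)) ≤
      ENNReal.ofReal (2 * (B * (η0 ^ (1 - r) / (r - 1)))) := by
  set g : ℝ → ℝ≥0∞ := (Set.Ici η0).indicator fun β => ENNReal.ofReal (B * β ^ (-r)) with hg
  have hgm : Measurable g := by
    refine Measurable.indicator ?_ measurableSet_Ici
    exact ((measurable_id.pow_const (-r)).const_mul B).ennreal_ofReal
  have hI : ∫⁻ β, g β = ENNReal.ofReal (B * (η0 ^ (1 - r) / (r - 1))) := by
    rw [hg, lintegral_indicator measurableSet_Ici, setLIntegral_congr Ioi_ae_eq_Ici.symm]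
    rw [← ofReal_integral_eq_lintegral_ofReal]
    · rw [integral_const_mul, integral_Ioi_rpow_of_lt (by linarith) h0]
      congr 2
      have e1 : -r + 1 = -(r - 1) := by ring
      have e2 : 1 - r = -(r - 1) := by ring
      rw [e1, e2, neg_div_neg_eq]
    · exact (integrableOn_Ioi_rpow_of_lt (by linarith) h0).const_mul B
    · refine (ae_restrict_iff' measurableSet_Ioi).2 (Filter.Eventually.of_forall fun β hβ => ?_)
      have : 0 < β := h0.trans hβ
      show 0 ≤ B * β ^ (-r)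
      positivity
  have h1 : ∫⁻ β in Arc η0 ηm, ENNReal.ofReal (B * |β| ^ (-r)) ≤ ∫⁻ β, (g β + g (-β)) := by
    refine (setLIntegral_mono' (measurableSet_Arc _ _) fun β hβ => ?_).trans
      (setLIntegral_le_lintegral _ _)
    rcases le_total 0 β with h | h
    · refine le_trans (le_of_eq ?_) le_self_add
      have h2 : β ∈ Set.Ici η0 := by
        have := hβ.1
        rwa [abs_of_nonneg h] at this
      rw [hg, Set.indicator_of_mem h2, abs_of_nonneg h]
    · refine le_trans (le_of_eq ?_) le_add_self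
      have h2 : -β ∈ Set.Ici η0 := by
        have := hβ.1
        rwa [abs_of_nonpos h] at this
      rw [hg, Set.indicator_of_mem h2, abs_of_nonpos h]
  refine h1.trans (le_of_eq ?_)
  have e1 : ∫⁻ β, g (-β) = ∫⁻ β, g β := lintegral_neg_eq_self g
  rw [lintegral_add_left hgm, e1, hI, ← two_mul, ENNReal.ofReal_mul zero_le_two]
  simp

lemma vol_arc (η0 ηm : ℝ) (hm : 0 ≤ ηm) : volume (Arc η0 ηm) ≤ ENNReal.ofReal (2 * ηm) := by
  have h1 : Arc η0 ηm ⊆ Set.Icc (-ηm) ηm := fun β hβ => abs_le.1 hβ.2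
  refine (measure_mono h1).trans (le_of_eq ?_)
  rw [Real.volume_Icc]
  congr 1
  ring

theorem dl1 (h : S_DL2) : S_DL1 := by
  intro k s δ hs hk hs3 hδ hδ1 hhs1 hhsk
  obtain ⟨C1, hC1, H⟩ := h k (by omega)
  have hkr : (2 : ℝ) ≤ k := by exact_mod_cast hk
  have hsr : (3 : ℝ) ≤ s := by exact_mod_cast hs3
  obtain ⟨X4, hX4⟩ : ∃ X4 : ℕ, ∀ X : ℕ, X4 ≤ X → (X : ℝ) ^ (-(k : ℝ) + hs) ≤ 1 / 2 := by
    have h3 : Filter.Tendsto (fun X : ℕ => (X : ℝ) ^ (-((k : ℝ) - hs))) Filter.atTop (nhds 0) :=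
      (tendsto_rpow_neg_atTop (by linarith)).comp tendsto_natCast_atTop_atTop
    have h4 := h3.eventually (ge_mem_nhds (by norm_num : (0 : ℝ) < 1 / 2))
    obtain ⟨X4, h5⟩ := Filter.eventually_atTop.1 h4
    refine ⟨X4, fun X hX => ?_⟩
    have h6 := h5 X hX
    have h7 : -((k : ℝ) - hs) = -(k : ℝ) + hs := by ring
    rwa [h7] at h6
  set r : ℝ := (s : ℝ) / 2 with hr
  have hr1 : 3 / 2 ≤ r := by rw [hr]; linarith
  have hr0 : 0 < r := by linarith
  set Cc : ℝ := Real.sqrt C1 ^ s * 2 ^ r with hCc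
  have hCcp : 0 < Cc := by positivity
  refine ⟨4 * Cc, by positivity, max X4 2, ?_⟩
  intro X hX
  have hXc : X4 ≤ X := (le_max_left _ _).trans hX
  have hXd : 2 ≤ X := (le_max_right _ _).trans hX
  have hX2 : (2 : ℝ) ≤ X := by exact_mod_cast hXd
  have hX1 : (1 : ℝ) ≤ X := by linarith
  have hX0 : (0 : ℝ) < X := by linarith
  rw [swap_eq s k X]
  set L : ℝ := Real.log (2 * X) with hL
  have hL0 : 0 < L := by
    rw [hL]
    exact Real.log_pos (by linarith)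
  set η0 : ℝ := (X : ℝ) ^ (-(k : ℝ) + δ) with hη0
  set ηm : ℝ := (X : ℝ) ^ (-(k : ℝ) + hs) with hηm
  have hη0p : 0 < η0 := Real.rpow_pos_of_pos hX0 _
  have hηmp : 0 < ηm := Real.rpow_pos_of_pos hX0 _
  have hηm2 : ηm ≤ 1 / 2 := hX4 X hXc
  set A : ℝ := Cc * L ^ s * (X : ℝ) ^ r with hA
  set B : ℝ := Cc * L ^ s * ((X : ℝ) ^ r * (X : ℝ) ^ (-(((k : ℝ) - 1) * r))) with hB
  have hA0 : 0 ≤ A := by positivity
  have hB0 : 0 ≤ B := by positivity
  have hpt : ∀ β ∈ Arc η0 ηm, ∏ _i : Fin s, hd k X β ≤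
      ENNReal.ofReal A + ENNReal.ofReal (B * |β| ^ (-r)) := by
    intro β hβ
    have hβ0 : 0 < |β| := hη0p.trans_le hβ.1
    set y : ℝ := 1 / (|β| * (X : ℝ) ^ (k - 1)) with hy
    have hy0 : 0 ≤ y := by positivity
    set D : ℝ := X * (1 + y) with hD
    have hD0 : 0 ≤ D := by positivity
    have h1 : hd k X β ≤ ENNReal.ofReal (Real.sqrt C1 * L * Real.sqrt D) := by
      refine hd_le_sqrt k X β _ (by positivity) ?_
      refine (H X β hXd hβ0 (hβ.2.trans hηm2)).trans (ENNReal.ofReal_le_ofReal (le_of_eq ?_))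
      rw [mul_pow, mul_pow, Real.sq_sqrt hC1.le, Real.sq_sqrt hD0, hD, hy]
      ring
    have h2 : ∏ _i : Fin s, hd k X β ≤ ENNReal.ofReal ((Real.sqrt C1 * L * Real.sqrt D) ^ s) := by
      rw [Finset.prod_const, Finset.card_univ, Fintype.card_fin, ENNReal.ofReal_pow (by positivity)]
      exact pow_le_pow_left' h1 s
    refine h2.trans ?_
    rw [← ENNReal.ofReal_add hA0 (by positivity)]
    refine ENNReal.ofReal_le_ofReal ?_
    have h3 : Real.sqrt D ^ s = D ^ r := by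
      rw [Real.sqrt_eq_rpow, ← Real.rpow_natCast, ← Real.rpow_mul hD0, hr]
      congr 1
      ring
    have h4 : D ^ r ≤ (X : ℝ) ^ r * (2 ^ r * (1 + y ^ r)) := by
      rw [hD, Real.mul_rpow hX0.le (by positivity)]
      exact mul_le_mul_of_nonneg_left (one_add_rpow y r hy0 hr0.le) (by positivity)
    have h5 : y ^ r = |β| ^ (-r) * (X : ℝ) ^ (-(((k : ℝ) - 1) * r)) := by
      rw [hy, one_div, Real.inv_rpow (by positivity), Real.mul_rpow hβ0.le (by positivity),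
        mul_inv, ← Real.rpow_neg hβ0.le, ← Real.rpow_natCast, ← Real.rpow_mul hX0.le,
        ← Real.rpow_neg hX0.le, Nat.cast_sub (by omega), Nat.cast_one]
    calc (Real.sqrt C1 * L * Real.sqrt D) ^ s = Real.sqrt C1 ^ s * L ^ s * D ^ r := by
          rw [mul_pow, mul_pow, h3]
      _ ≤ Real.sqrt C1 ^ s * L ^ s * ((X : ℝ) ^ r * (2 ^ r * (1 + y ^ r))) :=
          mul_le_mul_of_nonneg_left h4 (by positivity)
      _ = A + B * |β| ^ (-r) := by
          rw [h5, hA, hB, hCc]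
          ring
  have h6 : ∫⁻ β in Arc η0 ηm, ∏ _i : Fin s, hd k X β ≤
      ENNReal.ofReal (A * (2 * ηm) + 2 * (B * (η0 ^ (1 - r) / (r - 1)))) := by
    calc ∫⁻ β in Arc η0 ηm, ∏ _i : Fin s, hd k X β
        ≤ ∫⁻ β in Arc η0 ηm, (ENNReal.ofReal A + ENNReal.ofReal (B * |β| ^ (-r))) :=
          setLIntegral_mono' (measurableSet_Arc _ _) hpt
      _ = ENNReal.ofReal A * volume (Arc η0 ηm) +
            ∫⁻ β in Arc η0 ηm, ENNReal.ofReal (B * |β| ^ (-r)) := by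
          rw [lintegral_add_left measurable_const, setLIntegral_const]
      _ ≤ ENNReal.ofReal A * ENNReal.ofReal (2 * ηm) +
            ENNReal.ofReal (2 * (B * (η0 ^ (1 - r) / (r - 1)))) :=
          add_le_add (mul_le_mul' le_rfl (vol_arc η0 ηm hηmp.le))
            (int_rpow η0 ηm r B hη0p (by linarith) hB0)
      _ = _ := by
          have : 0 ≤ η0 ^ (1 - r) / (r - 1) :=
            div_nonneg (Real.rpow_nonneg hη0p.le _) (by linarith)
          rw [← ENNReal.ofReal_mul hA0, ← ENNReal.ofReal_add (by positivity) (by positivity)]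
  refine h6.trans (ENNReal.ofReal_le_ofReal ?_)
  have h7 : A * (2 * ηm) = 2 * Cc * L ^ s * (X : ℝ) ^ ((s : ℝ) / 2 - k + hs) := by
    have e1 : (X : ℝ) ^ r * ηm = (X : ℝ) ^ ((s : ℝ) / 2 - k + hs) := by
      rw [hηm, ← Real.rpow_add hX0, hr]
      congr 1
      ring
    rw [← e1, hA]
    ring
  have h8 : B * η0 ^ (1 - r) = Cc * L ^ s *
      (X : ℝ) ^ ((s : ℝ) - k - δ * ((s : ℝ) / 2 - 1)) := by
    have e1 : (X : ℝ) ^ r * (X : ℝ) ^ (-(((k : ℝ) - 1) * r)) * η0 ^ (1 - r) =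
        (X : ℝ) ^ ((s : ℝ) - k - δ * ((s : ℝ) / 2 - 1)) := by
      rw [hη0, ← Real.rpow_mul hX0.le, ← Real.rpow_add hX0, ← Real.rpow_add hX0, hr]
      congr 1
      ring
    rw [← e1, hB]
    ring
  have h9 : 2 * (B * (η0 ^ (1 - r) / (r - 1))) ≤ 4 * (B * η0 ^ (1 - r)) := by
    have e1 : 0 ≤ B * η0 ^ (1 - r) := by positivity
    have e2 : 2 * (B * (η0 ^ (1 - r) / (r - 1))) = (B * η0 ^ (1 - r)) * (2 / (r - 1)) := by ring
    have e3 : 2 / (r - 1) ≤ 4 := by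
      rw [div_le_iff₀ (by linarith)]
      linarith
    rw [e2]
    calc (B * η0 ^ (1 - r)) * (2 / (r - 1)) ≤ (B * η0 ^ (1 - r)) * 4 :=
          mul_le_mul_of_nonneg_left e3 e1
      _ = 4 * (B * η0 ^ (1 - r)) := by ring
  have h10 : 0 ≤ Cc * L ^ s * (X : ℝ) ^ ((s : ℝ) / 2 - k + hs) := by positivity
  calc A * (2 * ηm) + 2 * (B * (η0 ^ (1 - r) / (r - 1)))
      ≤ A * (2 * ηm) + 4 * (B * η0 ^ (1 - r)) := by linarith
    _ = 2 * (Cc * L ^ s * (X : ℝ) ^ ((s : ℝ) / 2 - k + hs)) +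
          4 * (Cc * L ^ s * (X : ℝ) ^ ((s : ℝ) - k - δ * ((s : ℝ) / 2 - 1))) := by
        rw [h7, h8]
        ring
    _ ≤ _ := by
        have : 4 * Cc * L ^ s * ((X : ℝ) ^ ((s : ℝ) - k - δ * ((s : ℝ) / 2 - 1)) +
            (X : ℝ) ^ ((s : ℝ) / 2 - k + hs)) =
            4 * (Cc * L ^ s * (X : ℝ) ^ ((s : ℝ) / 2 - k + hs)) +
            4 * (Cc * L ^ s * (X : ℝ) ^ ((s : ℝ) - k - δ * ((s : ℝ) / 2 - 1))) := by ring
        rw [this]
        linarith

end Pool.Agent.N232.KW
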