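import Pool.Agent.N20.DI.Stm

/-!
# Project DI (helper20), COMB (helper232): the combinatorial induction over the subgroups of a
cyclic group
-/

set_option autoImplicit false

open scoped Classical BigOperators

noncomputable section

namespace Pool.Agent.N232.DICOMB

open Pool.Agent.N20.DI

/-- sums over the fibres -/
theorem lemA {Ω α : Type} [Fintype Ω] [Fintype α] [PartialOrder α] (S : Ω → α) (f : Ω → ℤ)
    (h : ∀ v, ∑ ω, (if v ≤ S ω then f ω else 0) = 0) (g : α → ℤ) :
    ∑ ω, g (S ω) * f ω = 0 := by
  have hx : ∀ v, ∑ ω, (if S ω = v then f ω else 0) = 0 := by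
    intro v
    induction v using WellFoundedGT.induction with
    | _ v ih =>
      have h1 : ∑ ω, (if v < S ω then f ω else 0) = 0 := by
        have e1 : ∀ ω, (if v < S ω then f ω else 0) =
            ∑ v', if S ω = v' then (if v < v' then f ω else 0) else 0 := by
          intro ω
          rw [Finset.sum_ite_eq]
          simp
        simp only [e1]
        rw [Finset.sum_comm]
        refine Finset.sum_eq_zero fun v' _ => ?_
        by_cases hv : v < v'
        · refine (Finset.sum_congr rfl fun ω _ => ?_).trans (ih v' hv)
          rw [if_pos hv]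
        · simp [hv]
      have h2 : ∑ ω, (if v ≤ S ω then f ω else 0) =
          ∑ ω, (if S ω = v then f ω else 0) + ∑ ω, (if v < S ω then f ω else 0) := by
        rw [← Finset.sum_add_distrib]
        refine Finset.sum_congr rfl fun ω _ => ?_
        by_cases h3 : S ω = v
        · simp [h3]
        · by_cases h4 : v ≤ S ω
          · have h5 : v < S ω := lt_of_le_of_ne h4 (Ne.symm h3)
            simp [h3, h4, h5]
          · have h5 : ¬ v < S ω := fun h => h4 h.le
            simp [h3, h4, h5]
      rw [h v, h1, add_zero] at h2
      exact h2.symm
  have e2 : ∀ ω, g (S ω) * f ω = ∑ v, if S ω = v then g v * f ω else 0 := by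
    intro ω
    rw [Finset.sum_ite_eq]
    simp
  simp only [e2]
  rw [Finset.sum_comm]
  refine Finset.sum_eq_zero fun v _ => ?_
  have e3 : ∑ ω, (if S ω = v then g v * f ω else 0) = g v * ∑ ω, (if S ω = v then f ω else 0) := by
    rw [Finset.mul_sum]
    refine Finset.sum_congr rfl fun ω _ => ?_
    split_ifs <;> simp
  rw [e3, hx v, mul_zero]

/-- the `p`-part of a subgroup of a cyclic group -/
theorem lemB {A : Type} [Group A] [Finite A] (p : ℕ) [hp : Fact p.Prime] (U : Subgroup A)
    (g : A) (hg : Subgroup.zpowers g = U) (S : Subgroup A) (hS : S ≤ U) :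
    (Nat.card S).factorization p = (Nat.card U).factorization p ↔
      g ^ (Nat.card U / p ^ (Nat.card U).factorization p) ∈ S := by
  have hUc : Nat.card U = orderOf g := by rw [← hg, Nat.card_zpowers]
  have hUp : 0 < Nat.card U := Nat.card_pos
  set n := (Nat.card U).factorization p with hn
  set M := Nat.card U / p ^ n with hM
  have hpM : p ^ n * M = Nat.card U := Nat.mul_div_cancel' (Nat.ordProj_dvd _ _)
  have hcop : Nat.Coprime p M := Nat.coprime_ordCompl hp.out hUp.ne'
  have hM0 : 0 < M := Nat.pos_of_ne_zero fun h => by rw [h, mul_zero] at hpM; omega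
  have hSU : Nat.card S ∣ Nat.card U := Subgroup.card_dvd_of_le hS
  have hSp : 0 < Nat.card S := Nat.card_pos
  constructor
  · intro h
    have hU : ∀ x ∈ U, ∀ y ∈ U, x * y = y * x := by
      intro x hx y hy
      rw [← hg] at hx hy
      obtain ⟨i, rfl⟩ := Subgroup.mem_zpowers_iff.1 hx
      obtain ⟨j, rfl⟩ := Subgroup.mem_zpowers_iff.1 hy
      exact zpow_mul_comm g i j
    haveI : (S.subgroupOf U).Normal := ⟨fun x hx y => by
      have e : y * x * y⁻¹ = x := by
        have := hU y y.2 x x.2
        have h2 : y * x = x * y := Subtype.ext this
        rw [h2, mul_inv_cancel_right]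
      rwa [e]⟩
    have hgU : g ∈ U := by rw [← hg]; exact Subgroup.mem_zpowers g
    have h1 := Subgroup.pow_index_mem (S.subgroupOf U) (⟨g, hgU⟩ : U)
    set i := (S.subgroupOf U).index with hi
    have h2 : g ^ i ∈ S := h1
    have h3 : Nat.card S * i = Nat.card U := by
      rw [← (S.subgroupOf U).card_mul_index, Nat.card_congr (Subgroup.subgroupOfEquivOfLe hS).toEquiv]
    have hi0 : i ≠ 0 := fun h => by rw [h, mul_zero] at h3; omega
    have h4 : i.factorization p = 0 := by
      have h5 : (Nat.card S * i).factorization p = (Nat.card U).factorization p := by rw [h3]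
      rw [Nat.factorization_mul hSp.ne' hi0, Finsupp.add_apply, h] at h5
      omega
    have h5 : Nat.Coprime (p ^ n) i := by
      apply Nat.Coprime.pow_left
      rw [Nat.Prime.coprime_iff_not_dvd hp.out]
      intro h6
      have := (hp.out.dvd_iff_one_le_factorization hi0).1 h6
      omega
    have h6 : i ∣ M := by
      have h7 : i ∣ p ^ n * M := by rw [hpM, ← h3]; exact dvd_mul_left _ _
      exact h5.symm.dvd_of_dvd_mul_left h7
    obtain ⟨c, hc⟩ := h6
    rw [hc, pow_mul]
    exact Subgroup.pow_mem _ h2 _
  · intro h
    have h1 : orderOf (g ^ M) = p ^ n := by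
      rw [orderOf_pow_of_dvd hM0.ne' (by rw [← hUc, ← hpM]; exact dvd_mul_left _ _), ← hUc, ← hpM,
        Nat.mul_div_cancel _ hM0]
    have h2 : p ^ n ∣ Nat.card S := by
      rw [← h1, ← Nat.card_zpowers]
      exact Subgroup.card_dvd_of_le ((Subgroup.zpowers_le).2 h)
    have h3 : n ≤ (Nat.card S).factorization p := (hp.out.pow_dvd_iff_le_factorization hSp.ne').1 h2
    have h4 : (Nat.card S).factorization p ≤ n :=
      (Nat.factorization_le_iff_dvd hSp.ne' hUp.ne').2 hSU p
    omega

theorem card_inf {A : Type} [Group A] [Finite A] (U T : Subgroup A) [Fintype U] :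
    ∑ x : U, (if (x : A) ∈ T then (1 : ℤ) else 0) = Nat.card ↥(T ⊓ U) := by
  rw [Finset.sum_boole]
  congr 1
  rw [← Fintype.card_subtype, ← Nat.card_eq_fintype_card]
  refine Nat.card_congr ⟨fun x => ⟨x.1.1, x.2, x.1.2⟩, fun x => ⟨⟨x.1, x.2.2⟩, x.2.1⟩,
    fun x => rfl, fun x => rfl⟩

/-- COMB -/
theorem COMB : S_COMB := by
  intro Ω A _ _ _ p hp w d T U₀ hU₀ hyp
  haveI : Fintype Ω := Fintype.ofFinite Ω
  haveI : Fintype A := Fintype.ofFinite A
  haveI : Fintype (Subgroup A) := Fintype.ofFinite _
  simp only [finsum_eq_sum_of_fintype] at hyp ⊢
  obtain ⟨Mx, hMx⟩ : ∃ Mx : ℕ, ∀ ω, d ω ≤ Mx :=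
    ⟨∑ ω, d ω, fun ω => Finset.single_le_sum (f := d) (fun _ _ => Nat.zero_le _)
      (Finset.mem_univ ω)⟩
  have main : ∀ U : Subgroup A, U ≤ U₀ → ∀ e : ℕ, 1 ≤ e →
      ∑ ω : Ω, (if d ω = e ∧ U ≤ T ω then w ω else 0) = 0 := by
    intro U
    induction U using WellFoundedLT.induction with
    | _ U ih =>
      intro hU
      have key : ∀ k e : ℕ, 1 ≤ e → Mx + 1 ≤ e + k →
          ∑ ω : Ω, (if d ω = e ∧ U ≤ T ω then w ω else 0) = 0 := by
        intro k
        induction k with
        | zero =>
          intro e _ he
          refine Finset.sum_eq_zero fun ω _ => ?_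
          have := hMx ω
          rw [if_neg]
          rintro ⟨h1, -⟩
          omega
        | succ k ihk =>
          intro e he1 he
          have hbig : ∀ e' : ℕ, e < e' → ∀ V : Subgroup A, V ≤ U →
              ∑ ω : Ω, (if d ω = e' ∧ V ≤ T ω then w ω else 0) = 0 := by
            intro e' he' V hV
            rcases eq_or_lt_of_le hV with rfl | hV
            · exact ihk e' (by omega) (by omega)
            · exact ih V hV (hV.le.trans hU) e' (by omega)
          -- the fact
          have fact : ∀ e' : ℕ, e < e' → ∀ g : Subgroup A → ℤ,
              ∑ ω : Ω, g (T ω ⊓ U) * (if d ω = e' then w ω else 0) = 0 := by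
            intro e' he' g
            refine lemA (fun ω => T ω ⊓ U) (fun ω => if d ω = e' then w ω else 0) ?_ g
            intro V
            by_cases hV : V ≤ U
            · refine (Finset.sum_congr rfl fun ω _ => ?_).trans (hbig e' he' V hV)
              by_cases h1 : V ≤ T ω
              · by_cases h2 : d ω = e'
                · rw [if_pos (le_inf h1 hV), if_pos h2, if_pos ⟨h2, h1⟩]
                · rw [if_pos (le_inf h1 hV), if_neg h2, if_neg (fun h => h2 h.1)]
              · rw [if_neg (fun h => h1 (h.trans inf_le_left)), if_neg (fun h => h1 h.2)]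
            · refine Finset.sum_eq_zero fun ω _ => ?_
              rw [if_neg]
              intro h1
              exact hV (h1.trans inf_le_right)
          set n := (Nat.card U).factorization p with hn
          have h0 := hyp U hU (e + n) (by omega)
          have hle : ∀ ω, (Nat.card ↥(T ω ⊓ U)).factorization p ≤ n := fun ω =>
            (Nat.factorization_le_iff_dvd (Nat.card_pos).ne' (Nat.card_pos).ne').2
              (Subgroup.card_dvd_of_le inf_le_right) p
          -- the part with `d = e`
          have h1 : ∑ ω : Ω, (if d ω = e ∧ (Nat.card ↥(T ω ⊓ U)).factorization p = n then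
              w ω * (Nat.card ↥(T ω ⊓ U) : ℤ) ^ 2 else 0) = 0 := by
            have h2 : ∑ ω : Ω, (if e < d ω ∧ d ω + (Nat.card ↥(T ω ⊓ U)).factorization p = e + n
                then w ω * (Nat.card ↥(T ω ⊓ U) : ℤ) ^ 2 else 0) = 0 := by
              have e1 : ∀ ω, (if e < d ω ∧ d ω + (Nat.card ↥(T ω ⊓ U)).factorization p = e + n
                  then w ω * (Nat.card ↥(T ω ⊓ U) : ℤ) ^ 2 else 0) =
                  ∑ e' ∈ Finset.range (Mx + 1), if e < e' then
                    (fun S : Subgroup A => if e' + (Nat.card S).factorization p = e + n then
                      (Nat.card S : ℤ) ^ 2 else 0) (T ω ⊓ U) * (if d ω = e' then w ω else 0)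
                    else 0 := by
                intro ω
                rw [Finset.sum_eq_single (d ω)]
                · by_cases h3 : e < d ω
                  · by_cases h4 : d ω + (Nat.card ↥(T ω ⊓ U)).factorization p = e + n
                    · simp only [h3, h4, true_and, if_true]
                      ring
                    · simp only [h3, h4, true_and, if_true, if_false, zero_mul]
                  · simp only [h3, false_and, if_false]
                · intro e' _ h3
                  rw [if_neg (Ne.symm h3), mul_zero]
                  simp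
                · intro h3
                  exact absurd (Finset.mem_range.2 (Nat.lt_succ_of_le (hMx ω))) h3
              simp only [e1]
              rw [Finset.sum_comm]
              refine Finset.sum_eq_zero fun e' _ => ?_
              by_cases h3 : e < e'
              · simp only [h3, if_true]
                exact fact e' h3 (fun S : Subgroup A =>
                  if e' + (Nat.card S).factorization p = e + n then (Nat.card S : ℤ) ^ 2 else 0)
              · simp [h3]
            have h3 : ∑ ω : Ω, (if d ω + (Nat.card ↥(T ω ⊓ U)).factorization p = e + n then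
                w ω * (Nat.card ↥(T ω ⊓ U) : ℤ) ^ 2 else 0) =
                ∑ ω : Ω, (if d ω = e ∧ (Nat.card ↥(T ω ⊓ U)).factorization p = n then
                  w ω * (Nat.card ↥(T ω ⊓ U) : ℤ) ^ 2 else 0) +
                ∑ ω : Ω, (if e < d ω ∧ d ω + (Nat.card ↥(T ω ⊓ U)).factorization p = e + n
                  then w ω * (Nat.card ↥(T ω ⊓ U) : ℤ) ^ 2 else 0) := by
              rw [← Finset.sum_add_distrib]
              refine Finset.sum_congr rfl fun ω _ => ?_
              have h4 := hle ω
              by_cases h5 : d ω + (Nat.card ↥(T ω ⊓ U)).factorization p = e + n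
              · by_cases h6 : d ω = e
                · have h7 : (Nat.card ↥(T ω ⊓ U)).factorization p = n := by omega
                  have h8 : ¬ e < d ω := by omega
                  rw [if_pos h5, if_pos ⟨h6, h7⟩, if_neg (fun h => h8 h.1), add_zero]
                · have h8 : e < d ω := by omega
                  rw [if_pos h5, if_neg (fun h => h6 h.1), if_pos ⟨h8, h5⟩, zero_add]
              · rw [if_neg h5, if_neg (fun h => h5 (by rw [h.1, h.2])), if_neg (fun h => h5 h.2),
                  add_zero]
            rw [h3, h2, add_zero] at h0
            exact h0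
          -- a generator of `U`
          haveI : IsCyclic U := isCyclic_of_injective (Subgroup.inclusion hU)
            (Subgroup.inclusion_injective hU)
          obtain ⟨g0, hg0⟩ := IsCyclic.exists_generator (α := U)
          set g : A := (g0 : A) with hgdef
          have hgU : Subgroup.zpowers g = U := by
            apply le_antisymm
            · rw [Subgroup.zpowers_le]
              exact g0.2
            · intro x hx
              obtain ⟨i, hi⟩ := Subgroup.mem_zpowers_iff.1 (hg0 ⟨x, hx⟩)
              refine Subgroup.mem_zpowers_iff.2 ⟨i, ?_⟩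
              have := congrArg (fun y : U => (y : A)) hi
              simpa using this
          set z : A := g ^ (Nat.card U / p ^ n) with hz
          have hzU : z ∈ U := Subgroup.pow_mem _ g0.2 _
          have hB : ∀ ω, (Nat.card ↥(T ω ⊓ U)).factorization p = n ↔ z ∈ T ω := by
            intro ω
            rw [lemB p U g hgU (T ω ⊓ U) inf_le_right]
            exact ⟨fun h => h.1, fun h => ⟨h, hzU⟩⟩
          haveI : Fintype U := Fintype.ofFinite U
          have h2 : ∑ x : U, ∑ y : U, ∑ ω : Ω,
              (if d ω = e ∧ Subgroup.closure {(x : A), (y : A), z} ≤ T ω then w ω else 0) = 0 := by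
            refine Eq.trans ?_ h1
            have e1 : ∀ ω, (if d ω = e ∧ (Nat.card ↥(T ω ⊓ U)).factorization p = n then
                w ω * (Nat.card ↥(T ω ⊓ U) : ℤ) ^ 2 else 0) =
                ∑ x : U, ∑ y : U, (if d ω = e ∧ Subgroup.closure {(x : A), (y : A), z} ≤ T ω
                  then w ω else 0) := by
              intro ω
              have e2 : ∀ x y : U, (if d ω = e ∧ Subgroup.closure {(x : A), (y : A), z} ≤ T ω
                  then w ω else 0) = (if d ω = e ∧ z ∈ T ω then w ω else 0) *
                    ((if (x : A) ∈ T ω then (1 : ℤ) else 0) *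
                      (if (y : A) ∈ T ω then (1 : ℤ) else 0)) := by
                intro x y
                have e3 : Subgroup.closure {(x : A), (y : A), z} ≤ T ω ↔
                    (x : A) ∈ T ω ∧ (y : A) ∈ T ω ∧ z ∈ T ω := by
                  rw [Subgroup.closure_le]
                  constructor
                  · intro h
                    exact ⟨h (by simp), h (by simp), h (by simp)⟩
                  · rintro ⟨ha, hb, hc⟩ t ht
                    rcases ht with rfl | rfl | rfl
                    exacts [ha, hb, hc]
                rw [e3]
                by_cases a1 : (x : A) ∈ T ω <;> by_cases a2 : (y : A) ∈ T ω <;>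
                  by_cases a3 : z ∈ T ω <;> by_cases a4 : d ω = e <;> simp [a1, a2, a3, a4]
              simp only [e2]
              simp only [← Finset.mul_sum]
              rw [← Finset.sum_mul, card_inf]
              by_cases a4 : d ω = e
              · by_cases a5 : z ∈ T ω
                · rw [if_pos ⟨a4, (hB ω).2 a5⟩, if_pos ⟨a4, a5⟩]
                  ring
                · rw [if_neg (fun h => a5 ((hB ω).1 h.2)), if_neg (fun h => a5 h.2), zero_mul]
              · rw [if_neg (fun h => a4 h.1), if_neg (fun h => a4 h.1), zero_mul]
            simp only [e1]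
            calc ∑ x : U, ∑ y : U, ∑ ω : Ω,
                  (if d ω = e ∧ Subgroup.closure {(x : A), (y : A), z} ≤ T ω then w ω else 0)
                = ∑ x : U, ∑ ω : Ω, ∑ y : U,
                  (if d ω = e ∧ Subgroup.closure {(x : A), (y : A), z} ≤ T ω then w ω else 0) :=
                  Finset.sum_congr rfl fun x _ => Finset.sum_comm
              _ = ∑ ω : Ω, ∑ x : U, ∑ y : U,
                  (if d ω = e ∧ Subgroup.closure {(x : A), (y : A), z} ≤ T ω then w ω else 0) :=
                  Finset.sum_comm
          have h3 : ∀ x y : U, ∑ ω : Ω,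
              (if d ω = e ∧ Subgroup.closure {(x : A), (y : A), z} ≤ T ω then w ω else 0) =
              (if Subgroup.closure {(x : A), (y : A), z} = U then 1 else 0) *
                ∑ ω : Ω, (if d ω = e ∧ U ≤ T ω then w ω else 0) := by
            intro x y
            by_cases h4 : Subgroup.closure {(x : A), (y : A), z} = U
            · rw [if_pos h4, h4, one_mul]
            · have h5 : Subgroup.closure {(x : A), (y : A), z} ≤ U := by
                rw [Subgroup.closure_le]
                intro t ht
                rcases ht with rfl | rfl | rfl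
                exacts [x.2, y.2, hzU]
              have h6 : Subgroup.closure {(x : A), (y : A), z} < U := lt_of_le_of_ne h5 h4
              rw [if_neg h4, zero_mul]
              exact ih _ h6 (h6.le.trans hU) e he1
          simp only [h3] at h2
          simp only [← Finset.sum_mul] at h2
          rcases mul_eq_zero.1 h2 with h4 | h4
          · exfalso
            have h5 : ∀ x ∈ (Finset.univ : Finset U), (0 : ℤ) ≤ ∑ y : U,
                (if Subgroup.closure {(x : A), (y : A), z} = U then 1 else 0) := fun x _ =>
              Finset.sum_nonneg fun y _ => by split_ifs <;> norm_num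
            have h6 := (Finset.sum_eq_zero_iff_of_nonneg h5).1 h4 g0 (Finset.mem_univ _)
            have h7 : ∀ y ∈ (Finset.univ : Finset U), (0 : ℤ) ≤
                (if Subgroup.closure {(g0 : A), (y : A), z} = U then 1 else 0) := fun y _ => by
              split_ifs <;> norm_num
            have h8 := (Finset.sum_eq_zero_iff_of_nonneg h7).1 h6 g0 (Finset.mem_univ _)
            have h9 : Subgroup.closure {(g0 : A), (g0 : A), z} = U := by
              apply le_antisymm
              · rw [Subgroup.closure_le]
                intro t ht
                rcases ht with rfl | rfl | rfl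
                exacts [g0.2, g0.2, hzU]
              · have h10 : Subgroup.zpowers g ≤ Subgroup.closure {(g0 : A), (g0 : A), z} := by
                  rw [Subgroup.zpowers_le]
                  exact Subgroup.subset_closure (by simp [hgdef])
                exact hgU.symm.le.trans h10
            rw [if_pos h9] at h8
            exact one_ne_zero h8
          · exact h4
      intro e he
      exact key (Mx + 1) e he (by omega)
  intro e he
  exact main U₀ le_rfl e he

end Pool.Agent.N232.DICOMB
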