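import Pool.Agent.N20.EW.Stm2

/-!
# EW/SY: elements whose centraliser in `C_G(Q)` has order prime to `p`
-/

set_option autoImplicit false

namespace Pool.Agent.N232.EW

open Pool.Agent.Y63.KR (conjSub)
open Pool.Agent.N20.EW

theorem mem_conj {G : Type} [Group G] (g z : G) (P : Subgroup G) :
    z ∈ conjSub g P ↔ g⁻¹ * z * g ∈ P := by
  unfold conjSub
  rw [Subgroup.mem_map]
  constructor
  · rintro ⟨u, hu, rfl⟩
    have e : g⁻¹ * ((MulAut.conj g).toMonoidHom u) * g = u := by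
      simp [MulAut.conj_apply]
      group
    rw [e]
    exact hu
  · intro h
    refine ⟨_, h, ?_⟩
    simp [MulAut.conj_apply]
    group

/-- normalisers grow in `p`-groups -/
theorem grow {p : ℕ} [Fact p.Prime] {K : Type} [Group K] [Finite K] {P Q : Subgroup K}
    (hP : IsPGroup p P) (hQP : Q ≤ P)
    (h : ∀ x ∈ P, (∀ z ∈ Q, x * z * x⁻¹ ∈ Q) → x ∈ Q) : P = Q := by
  by_contra hne
  have hnil : Group.IsNilpotent P := hP.isNilpotent
  have hnc := Group.normalizerCondition_of_isNilpotent (G := P)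
  have hlt : Q.subgroupOf P < ⊤ := by
    rw [lt_top_iff_ne_top]
    intro h1
    exact hne (le_antisymm (Subgroup.subgroupOf_eq_top.1 h1) hQP)
  have h2 := hnc _ hlt
  obtain ⟨x, hx, hx'⟩ := Set.exists_of_ssubset h2
  apply hx'
  show x ∈ Q.subgroupOf P
  rw [Subgroup.mem_subgroupOf]
  refine h x x.2 fun z hz => ?_
  have h3 := (Subgroup.mem_normalizer_iff.1 hx ⟨z, hQP hz⟩).1 (Subgroup.mem_subgroupOf.2 hz)
  exact Subgroup.mem_subgroupOf.1 h3

/-- Sylow's theorem -/
theorem syl {p : ℕ} [Fact p.Prime] {K : Type} [Group K] [Finite K] {X Q : Subgroup K}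
    (hQX : Q ≤ X) (hQ : IsPGroup p Q)
    (hm : ∀ P : Subgroup K, IsPGroup p P → Q ≤ P → P ≤ X → P = Q) {P : Subgroup K}
    (hP : IsPGroup p P) (hPX : P ≤ X) : ∃ k ∈ X, conjSub k P ≤ Q := by
  have hQ' : IsPGroup p ↥(Q.subgroupOf X) := hQ.of_equiv (Subgroup.subgroupOfEquivOfLe hQX).symm
  have hP' : IsPGroup p ↥(P.subgroupOf X) := hP.of_equiv (Subgroup.subgroupOfEquivOfLe hPX).symm
  obtain ⟨P1, h1⟩ := hQ'.exists_le_sylow
  obtain ⟨P2, h2⟩ := hP'.exists_le_sylow
  have hm1 : (P1 : Subgroup X).map X.subtype = Q := by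
    refine hm _ (P1.isPGroup'.map _) ?_ ?_
    · intro z hz
      exact ⟨⟨z, hQX hz⟩, h1 (Subgroup.mem_subgroupOf.2 hz), rfl⟩
    · rintro _ ⟨z, _, rfl⟩
      exact z.2
  obtain ⟨x, hx⟩ := MulAction.exists_smul_eq ↥X P2 P1
  refine ⟨x, x.2, ?_⟩
  intro z hz
  rw [mem_conj] at hz
  have hzX : (x : K)⁻¹ * z * x ∈ X := hPX hz
  have h3 : (⟨(x : K)⁻¹ * z * x, hzX⟩ : X) ∈ P2 := h2 (Subgroup.mem_subgroupOf.2 hz)
  have h4 : x * ⟨(x : K)⁻¹ * z * x, hzX⟩ * x⁻¹ ∈ x • P2 := ⟨_, h3, rfl⟩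
  rw [hx] at h4
  rw [← hm1]
  refine ⟨_, h4, ?_⟩
  simp only [Subgroup.subtype_apply, Subgroup.coe_mul, Subgroup.coe_inv]
  group

theorem SY : S_SY := by
  intro p _ G K _ _ _ _ i hi hN Q hQ hQi y hy
  -- the centraliser of `Q` and `y` has no `p`-elements
  have hA : ∀ g : K, g ∈ i.range → (∀ q ∈ Q, q * g = g * q) → g * i y = i y * g →
      (∃ k : ℕ, g ^ p ^ k = 1) → g = 1 := by
    rintro _ ⟨g, rfl⟩ h1 h2 ⟨k, hk⟩
    have hg : g ∈ CQ i Q := by
      rw [Subgroup.mem_comap, Subgroup.mem_centralizer_iff]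
      intro q hq
      exact h1 q hq
    have hc : (⟨g, hg⟩ : CQ i Q) ∈ Subgroup.centralizer {y} := by
      rw [Subgroup.mem_centralizer_iff]
      intro z hz
      rw [Set.mem_singleton_iff] at hz
      subst hz
      apply Subtype.ext
      apply hi
      rw [Subgroup.coe_mul, Subgroup.coe_mul, map_mul, map_mul]
      exact h2.symm
    have ho : orderOf (⟨⟨g, hg⟩, hc⟩ : Subgroup.centralizer {y}) ∣ p ^ k := by
      apply orderOf_dvd_of_pow_eq_one
      apply Subtype.ext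
      apply Subtype.ext
      apply hi
      simp only [Subgroup.coe_pow, Subgroup.coe_one, map_pow, map_one]
      exact hk
    have hd : orderOf (⟨⟨g, hg⟩, hc⟩ : Subgroup.centralizer {y}) ∣
        Nat.card ↥(Subgroup.centralizer {y}) := orderOf_dvd_natCard _
    obtain ⟨j, hj, hj'⟩ := (Nat.dvd_prime_pow Fact.out).1 ho
    have hj0 : j = 0 := by
      by_contra h0
      apply hy
      rw [hj'] at hd
      exact (dvd_pow_self p h0).trans hd
    rw [hj0, pow_zero, orderOf_eq_one_iff] at hj'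
    have h5 := congrArg (fun z : Subgroup.centralizer {y} => i ((z : CQ i Q) : G)) hj'
    simpa using h5
  -- elements of `Q` commute with `i y`
  have hQy : ∀ z : CQ i Q, ∀ q ∈ Q, q * i z = i z * q := by
    intro z q hq
    have := z.2
    rw [Subgroup.mem_comap, Subgroup.mem_centralizer_iff] at this
    exact this q hq
  -- elements of `G` which normalise `Q` centralise it
  have hB : ∀ g ∈ i.range, (∀ q ∈ Q, g * q * g⁻¹ ∈ Q) → ∀ q ∈ Q, q * g = g * q := by
    intro g hg h1 q hq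
    have h2 : g * q * g⁻¹ * q⁻¹ ∈ Q := Q.mul_mem (h1 q hq) (Q.inv_mem hq)
    have h3 : g * q * g⁻¹ * q⁻¹ ∈ i.range := by
      have h4 : q * g⁻¹ * q⁻¹ ∈ i.range := hN.conj_mem _ (i.range.inv_mem hg) q
      have e : g * q * g⁻¹ * q⁻¹ = g * (q * g⁻¹ * q⁻¹) := by group
      rw [e]
      exact i.range.mul_mem hg h4
    have h5 : g * q * g⁻¹ * q⁻¹ ∈ Q ⊓ i.range := ⟨h2, h3⟩
    rw [hQi, Subgroup.mem_bot] at h5
    have h6 : g * q = q * g := by
      have h7 := congrArg (fun t => t * (q * g)) h5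
      simpa [mul_assoc] using h7
    exact h6.symm
  have hsup : ∀ x : K, x ∈ i.range ⊔ Q ↔ ∃ g ∈ i.range, ∃ q ∈ Q, g * q = x := fun x =>
    Subgroup.mem_sup_of_normal_left
  obtain ⟨X, hX⟩ : ∃ X : Subgroup K, X = (i.range ⊔ Q) ⊓ Subgroup.centralizer {i y} := ⟨_, rfl⟩
  have hXc : ∀ x ∈ X, x * i y = i y * x := by
    intro x hx
    rw [hX] at hx
    exact (Subgroup.mem_centralizer_iff.1 hx.2 (i y) rfl).symm
  have hQX : Q ≤ X := by
    rw [hX]
    refine le_inf le_sup_right ?_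
    intro q hq
    rw [Subgroup.mem_centralizer_iff]
    intro z hz
    rw [Set.mem_singleton_iff] at hz
    rw [hz]
    exact (hQy y q hq).symm
  have hmax : ∀ P : Subgroup K, IsPGroup p P → Q ≤ P → P ≤ X → P = Q := by
    intro P hP hQP hPX
    refine grow hP hQP fun x hx hxQ => ?_
    have hxX := hPX hx
    have hxS : x ∈ i.range ⊔ Q := by
      rw [hX] at hxX
      exact hxX.1
    obtain ⟨g, hg, q, hq, rfl⟩ := (hsup x).1 hxS
    have hgP : g ∈ P := by
      have := P.mul_mem hx (P.inv_mem (hQP hq))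
      simpa using this
    have hgQ : ∀ z ∈ Q, g * z * g⁻¹ ∈ Q := by
      intro z hz
      have h1 := hxQ (q⁻¹ * z * q) (Q.mul_mem (Q.mul_mem (Q.inv_mem hq) hz) hq)
      have e : g * q * (q⁻¹ * z * q) * (g * q)⁻¹ = g * z * g⁻¹ := by group
      rwa [e] at h1
    have hgc := hB g hg hgQ
    have hgy : g * i y = i y * g := by
      have h1 := hXc _ hxX
      have h2 := hQy y q hq
      have h3 : g * i y * q = i y * g * q := by
        calc g * i y * q = g * (i y * q) := by group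
          _ = g * (q * i y) := by rw [h2]
          _ = g * q * i y := by group
          _ = i y * (g * q) := h1
          _ = i y * g * q := by group
      exact mul_right_cancel h3
    obtain ⟨k, hk⟩ := hP ⟨g, hgP⟩
    have hk' : g ^ p ^ k = 1 := by
      have := congrArg (fun t : P => (t : K)) hk
      simpa using this
    have hg1 := hA g hg hgc hgy ⟨k, hk'⟩
    rw [hg1, one_mul]
    exact hq
  have h2 : ∀ P : Subgroup K, IsPGroup p P → P ≤ i.range ⊔ Q → P ≤ Subgroup.centralizer {i y} →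
      ∃ k ∈ (i.range ⊔ Q) ⊓ Subgroup.centralizer {i y}, conjSub k P ≤ Q := by
    intro P hP h3 h4
    have h5 : P ≤ X := by rw [hX]; exact le_inf h3 h4
    have h6 := syl hQX hQ hmax hP h5
    rwa [hX] at h6
  refine ⟨?_, h2, ?_⟩
  · intro hd
    obtain ⟨c, hc⟩ := exists_prime_orderOf_dvd_card' p hd
    have hcp : i (c : G) ^ p = 1 := by
      have h3 := pow_orderOf_eq_one c
      rw [hc] at h3
      have h4 := congrArg (fun t : Subgroup.centralizer {(y : G)} => i (t : G)) h3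
      simpa using h4
    have hP : IsPGroup p (Subgroup.zpowers (i (c : G))) := by
      rintro ⟨_, n, rfl⟩
      refine ⟨1, ?_⟩
      apply Subtype.ext
      simp only [Subgroup.coe_pow, Subgroup.coe_one, pow_one]
      rw [← zpow_natCast, ← zpow_mul, mul_comm, zpow_mul, zpow_natCast, hcp, one_zpow]
    have hle : Subgroup.zpowers (i (c : G)) ≤ i.range := by
      rw [Subgroup.zpowers_le]
      exact ⟨_, rfl⟩
    have hlc : Subgroup.zpowers (i (c : G)) ≤ Subgroup.centralizer {i y} := by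
      rw [Subgroup.zpowers_le, Subgroup.mem_centralizer_iff]
      intro z hz
      rw [Set.mem_singleton_iff] at hz
      rw [hz, ← map_mul, ← map_mul]
      congr 1
      exact Subgroup.mem_centralizer_iff.1 c.2 _ rfl
    obtain ⟨k, _, hkQ⟩ := h2 _ hP (hle.trans le_sup_left) hlc
    have h5 : k * i (c : G) * k⁻¹ ∈ Q ⊓ i.range := by
      refine ⟨hkQ ?_, hN.conj_mem _ ⟨_, rfl⟩ k⟩
      rw [mem_conj]
      have e : k⁻¹ * (k * i (c : G) * k⁻¹) * k = i (c : G) := by group
      rw [e]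
      exact Subgroup.mem_zpowers _
    rw [hQi, Subgroup.mem_bot] at h5
    have h6 : i (c : G) = 1 := by
      have h7 := congrArg (fun t => k⁻¹ * t * k) h5
      simpa [mul_assoc] using h7
    have h7 : (c : G) = 1 := hi (by rw [h6, map_one])
    have h8 : c = 1 := Subtype.ext h7
    rw [h8, orderOf_one] at hc
    exact (Fact.out : p.Prime).one_lt.ne hc
  · rintro y' ⟨k, hk, hky⟩
    have hPs : conjSub k⁻¹ Q ≤ i.range ⊔ Q := by
      intro z hz
      rw [mem_conj, inv_inv] at hz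
      have h3 : k * z * k⁻¹ ∈ i.range ⊔ Q := (le_sup_right : Q ≤ i.range ⊔ Q) hz
      have h4 := (i.range ⊔ Q).mul_mem ((i.range ⊔ Q).mul_mem ((i.range ⊔ Q).inv_mem hk) h3) hk
      have e : k⁻¹ * (k * z * k⁻¹) * k = z := by group
      rwa [e] at h4
    have hPc : conjSub k⁻¹ Q ≤ Subgroup.centralizer {i y} := by
      intro z hz
      rw [mem_conj, inv_inv] at hz
      rw [Subgroup.mem_centralizer_iff]
      intro u hu
      rw [Set.mem_singleton_iff] at hu
      rw [hu]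
      have h3 := hQy y' _ hz
      rw [hky] at h3
      have h4 := congrArg (fun t => k⁻¹ * t * k) h3
      have e1 : k⁻¹ * (k * z * k⁻¹ * (k * i (y : G) * k⁻¹)) * k = z * i (y : G) := by group
      have e2 : k⁻¹ * (k * i (y : G) * k⁻¹ * (k * z * k⁻¹)) * k = i (y : G) * z := by group
      simp only [e1, e2] at h4
      exact h4.symm
    have hPp : IsPGroup p (conjSub k⁻¹ Q) := hQ.map _
    obtain ⟨x, hx, hxQ⟩ := h2 _ hPp hPs hPc
    obtain ⟨m, hm⟩ : ∃ m : K, m = x * k⁻¹ := ⟨_, rfl⟩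
    have hmS : m ∈ i.range ⊔ Q := by
      rw [hm]
      exact (i.range ⊔ Q).mul_mem hx.1 ((i.range ⊔ Q).inv_mem hk)
    have hmQ : ∀ z ∈ Q, m * z * m⁻¹ ∈ Q := by
      intro z hz
      apply hxQ
      rw [mem_conj, mem_conj, hm]
      have e : (k⁻¹)⁻¹ * (x⁻¹ * (x * k⁻¹ * z * (x * k⁻¹)⁻¹) * x) * k⁻¹ = z := by group
      rw [e]
      exact hz
    obtain ⟨g, hg, q, hq, hgq⟩ := (hsup m).1 hmS
    have hgQ : ∀ z ∈ Q, g * z * g⁻¹ ∈ Q := by
      intro z hz
      have h1 := hmQ (q⁻¹ * z * q) (Q.mul_mem (Q.mul_mem (Q.inv_mem hq) hz) hq)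
      have e : m * (q⁻¹ * z * q) * m⁻¹ = g * z * g⁻¹ := by rw [← hgq]; group
      rwa [e] at h1
    have hgc := hB g hg hgQ
    have hxy : x * i y = i y * x := (Subgroup.mem_centralizer_iff.1 hx.2 (i y) rfl).symm
    have hfin : i (y : G) = g * i (y' : G) * g⁻¹ := by
      have h3 : i (y : G) = m * i (y' : G) * m⁻¹ := by
        rw [hky, hm]
        have e : x * k⁻¹ * (k * i (y : G) * k⁻¹) * (x * k⁻¹)⁻¹ = x * i (y : G) * x⁻¹ := by group
        rw [e, hxy]
        group
      have h4 := hQy y' q hq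
      rw [h3, ← hgq]
      have e : g * q * i (y' : G) * (g * q)⁻¹ = g * (q * i (y' : G)) * q⁻¹ * g⁻¹ := by group
      rw [e, h4]
      group
    obtain ⟨g0, hg0⟩ := hg
    have hg0C : g0 ∈ CQ i Q := by
      rw [Subgroup.mem_comap, Subgroup.mem_centralizer_iff]
      intro z hz
      rw [hg0]
      exact hgc z hz
    apply IsConj.symm
    rw [isConj_iff]
    refine ⟨⟨g0, hg0C⟩, ?_⟩
    apply Subtype.ext
    apply hi
    simp only [Subgroup.coe_mul, Subgroup.coe_inv, map_mul, map_inv]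
    rw [hg0, hfin]

end Pool.Agent.N232.EW
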