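import Pool.Agent.N661.BR.Stm2

/-!
Project BR/BH (helper661), part BR/PAIR: from cosine polynomials to measurable sets.
By helper232.
-/

set_option autoImplicit false
open MeasureTheory Filter Topology

namespace Pool.Agent.N232.BRPAIR

open Pool.Agent.N661.BR

section main

/-- the functions `x ↦ cos (j x)` -/
noncomputable def cf (j : ℤ) : ℝ → ℝ := fun x => Real.cos ((j : ℝ) * x)

theorem CP_eq (v : ℤ →₀ ℝ) : CP v = Finsupp.linearCombination ℝ cf v := by
  funext x
  rw [Finsupp.linearCombination_apply, Finsupp.sum, Finset.sum_apply]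
  rfl

/-- the even cosine polynomials -/
noncomputable def EV : Submodule ℝ (ℝ → ℝ) := Submodule.span ℝ (cf '' {j : ℤ | Even j})

theorem mem_EV {f : ℝ → ℝ} (hf : f ∈ EV) :
    ∃ v : ℤ →₀ ℝ, (∀ j ∈ v.support, Even j) ∧ CP v = f := by
  rw [EV, Finsupp.mem_span_image_iff_linearCombination] at hf
  obtain ⟨v, hv, hv2⟩ := hf
  refine ⟨v, ?_, by rw [CP_eq, hv2]⟩
  intro j hj
  rw [Finsupp.mem_supported] at hv
  exact hv (by simpa using hj)

/-- multiplication by `cos (2 x)` -/
theorem mul_EV {f : ℝ → ℝ} (hf : f ∈ EV) : (fun x => f x * Real.cos (2 * x)) ∈ EV := by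
  unfold EV at hf
  induction hf using Submodule.span_induction with
  | mem f h =>
    obtain ⟨j, hj, rfl⟩ := h
    have h1 : (fun x => cf j x * Real.cos (2 * x)) =
        (1 / 2 : ℝ) • cf (j + 2) + (1 / 2 : ℝ) • cf (j - 2) := by
      funext x
      simp only [cf, Pi.add_apply, Pi.smul_apply, smul_eq_mul]
      push_cast
      rw [add_mul, sub_mul, Real.cos_add, Real.cos_sub]
      ring
    rw [h1]
    refine Submodule.add_mem _ (Submodule.smul_mem _ _ (Submodule.subset_span ⟨_, ?_, rfl⟩))
      (Submodule.smul_mem _ _ (Submodule.subset_span ⟨_, ?_, rfl⟩))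
    · exact hj.add (by decide)
    · exact hj.sub (by decide)
  | zero =>
    have : (fun x : ℝ => (0 : ℝ → ℝ) x * Real.cos (2 * x)) = 0 := by funext x; simp
    rw [this]; exact Submodule.zero_mem _
  | add f g _ _ hf hg =>
    have : (fun x : ℝ => (f + g) x * Real.cos (2 * x)) =
        (fun x => f x * Real.cos (2 * x)) + (fun x => g x * Real.cos (2 * x)) := by
      funext x; simp [add_mul]
    rw [this]; exact Submodule.add_mem _ hf hg
  | smul a f _ hf =>
    have : (fun x : ℝ => (a • f) x * Real.cos (2 * x)) =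
        a • (fun x => f x * Real.cos (2 * x)) := by
      funext x; simp [mul_assoc]
    rw [this]; exact Submodule.smul_mem _ _ hf

theorem one_EV : (fun _ : ℝ => (1 : ℝ)) ∈ EV := by
  have : (fun _ : ℝ => (1 : ℝ)) = cf 0 := by funext x; simp [cf]
  rw [this]
  exact Submodule.subset_span ⟨0, by simp, rfl⟩

theorem pow_EV (n : ℕ) : (fun x : ℝ => Real.cos (2 * x) ^ n) ∈ EV := by
  induction n with
  | zero => simpa using one_EV
  | succ n ih => 
    have := mul_EV ih
    simpa [pow_succ] using this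

theorem poly_EV (p : Polynomial ℝ) : (fun x : ℝ => p.eval (Real.cos (2 * x))) ∈ EV := by
  have h : (fun x : ℝ => p.eval (Real.cos (2 * x))) =
      ∑ i ∈ p.support, p.coeff i • (fun x : ℝ => Real.cos (2 * x) ^ i) := by
    funext x
    rw [Polynomial.eval_eq_sum, Polynomial.sum, Finset.sum_apply]
    rfl
  rw [h]
  exact Submodule.sum_mem _ fun i _ => Submodule.smul_mem _ _ (pow_EV i)

/-- a polynomial in `cos 2x` vanishing at `0` -/
theorem poly_EZ (p : Polynomial ℝ) (hp : p.eval 1 = 0) :
    ∃ v : ℤ →₀ ℝ, EZ v ∧ ∀ x, CP v x = p.eval (Real.cos (2 * x)) := by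
  obtain ⟨v, hv, hv2⟩ := mem_EV (poly_EV p)
  refine ⟨v, ⟨hv, ?_⟩, fun x => congrFun hv2 x⟩
  have := congrFun hv2 0
  simpa [CP, hp] using this

theorem CP_cont (v : ℤ →₀ ℝ) : Continuous (CP v) := by
  unfold CP
  fun_prop

/-- even, `π`-periodic continuous functions are continuous functions of `cos 2x` -/
theorem fac {F : ℝ → ℝ} (he : ∀ x, F (-x) = F x) (hp : Function.Periodic F Real.pi) (x : ℝ) :
    F (Real.arccos (Real.cos (2 * x)) / 2) = F x := by
  set y := Real.arccos (Real.cos (2 * x)) / 2 with hy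
  have h1 : Real.cos (2 * y) = Real.cos (2 * x) := by
    rw [hy, mul_div_cancel₀ _ (by norm_num : (2 : ℝ) ≠ 0), Real.cos_arccos (Real.neg_one_le_cos _)
      (Real.cos_le_one _)]
  rw [Real.cos_eq_cos_iff] at h1
  obtain ⟨k, hk | hk⟩ := h1
  · have : x = y + k * Real.pi := by linarith
    rw [this]
    exact (hp.int_mul k y).symm
  · have : x = -y + k * Real.pi := by linarith
    rw [this, hp.int_mul k, he]

/-- approximation -/
theorem approx {F : ℝ → ℝ} (hc : Continuous F) (he : ∀ x, F (-x) = F x)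
    (hp : Function.Periodic F Real.pi) (h0 : F 0 = 0) (ε : ℝ) (hε : 0 < ε) :
    ∃ v : ℤ →₀ ℝ, EZ v ∧ ∀ x, |CP v x - F x| < ε := by
  obtain ⟨p, hpp⟩ := exists_polynomial_near_of_continuousOn (-1) 1
    (fun c => F (Real.arccos c / 2)) (by fun_prop) (ε / 2) (by positivity)
  have h1 := hpp 1 (by simp)
  have h1' : |p.eval 1| < ε / 2 := by simpa [h0] using h1
  obtain ⟨v, hv, hv2⟩ := poly_EZ (p - Polynomial.C (p.eval 1)) (by simp)
  refine ⟨v, hv, fun x => ?_⟩
  rw [hv2]
  have h2 := hpp (Real.cos (2 * x)) ⟨Real.neg_one_le_cos _, Real.cos_le_one _⟩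
  simp only [fac he hp] at h2
  rw [Polynomial.eval_sub, Polynomial.eval_C]
  rw [abs_lt] at *
  constructor <;> linarith

variable (M : Measure ℝ)
  (hM : ∀ v : ℤ →₀ ℝ, EZ v → ∫⁻ x, ENNReal.ofReal (CP v x ^ 2) ∂M ≤
    ENNReal.ofReal (1 / Real.pi * ∫ x in (0:ℝ)..Real.pi, CP v x ^ 2))

include hM in
theorem step1 {F : ℝ → ℝ} (hc : Continuous F) (he : ∀ x, F (-x) = F x)
    (hp : Function.Periodic F Real.pi) (h0 : F 0 = 0) :
    ∫⁻ x, ENNReal.ofReal (F x ^ 2) ∂M ≤
      ENNReal.ofReal (1 / Real.pi * ∫ x in (0:ℝ)..Real.pi, F x ^ 2) := by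
  choose v hv hv2 using fun n : ℕ => approx hc he hp h0 (1 / ((n : ℝ) + 1)) (by positivity)
  have hlim : ∀ x, Tendsto (fun n => CP (v n) x) atTop (𝓝 (F x)) := by
    intro x
    rw [tendsto_iff_dist_tendsto_zero]
    refine squeeze_zero (fun _ => dist_nonneg) (fun n => ?_) tendsto_one_div_add_atTop_nhds_zero_nat
    rw [Real.dist_eq]
    exact (hv2 n x).le
  have hlim2 : ∀ x, Tendsto (fun n => CP (v n) x ^ 2) atTop (𝓝 (F x ^ 2)) := fun x => (hlim x).pow 2
  have hint : Tendsto (fun n => ∫ x in (0:ℝ)..Real.pi, CP (v n) x ^ 2) atTop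
      (𝓝 (∫ x in (0:ℝ)..Real.pi, F x ^ 2)) := by
    apply intervalIntegral.tendsto_integral_filter_of_dominated_convergence
      (fun x => (|F x| + 1) ^ 2)
    · exact Eventually.of_forall fun n => ((CP_cont _).pow 2).aestronglyMeasurable
    · refine Eventually.of_forall fun n => Eventually.of_forall fun x _ => ?_
      rw [norm_pow, Real.norm_eq_abs]
      apply pow_le_pow_left₀ (abs_nonneg _)
      have h1 := hv2 n x
      have h2 : (1 : ℝ) / ((n : ℝ) + 1) ≤ 1 := by
        rw [div_le_one (by positivity)]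
        have : (0 : ℝ) ≤ n := Nat.cast_nonneg n
        linarith
      have h3 := abs_sub_abs_le_abs_sub (CP (v n) x) (F x)
      linarith
    · apply Continuous.intervalIntegrable
      fun_prop
    · exact Eventually.of_forall fun x _ => hlim2 x
  have h1 : ∀ x, ENNReal.ofReal (F x ^ 2) =
      liminf (fun n => ENNReal.ofReal (CP (v n) x ^ 2)) atTop := by
    intro x
    exact ((ENNReal.tendsto_ofReal (hlim2 x)).liminf_eq).symm
  calc ∫⁻ x, ENNReal.ofReal (F x ^ 2) ∂M =
      ∫⁻ x, liminf (fun n => ENNReal.ofReal (CP (v n) x ^ 2)) atTop ∂M := by simp_rw [h1]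
    _ ≤ liminf (fun n => ∫⁻ x, ENNReal.ofReal (CP (v n) x ^ 2) ∂M) atTop := by
        apply lintegral_liminf_le
        intro n
        exact ENNReal.measurable_ofReal.comp ((CP_cont _).pow 2).measurable
    _ ≤ liminf (fun n => ENNReal.ofReal (1 / Real.pi * ∫ x in (0:ℝ)..Real.pi, CP (v n) x ^ 2))
          atTop := by
        exact liminf_le_liminf (Eventually.of_forall fun n => hM _ (hv n))
    _ = ENNReal.ofReal (1 / Real.pi * ∫ x in (0:ℝ)..Real.pi, F x ^ 2) := by
        exact (ENNReal.tendsto_ofReal (hint.const_mul _)).liminf_eq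

variable (hs : M.map Neg.neg = M)

include hM hs in
theorem step2 {h : ℝ → ℝ} (hc : Continuous h) (hn : ∀ x, 0 ≤ h x)
    (hp : Function.Periodic h Real.pi) (h0 : h 0 = 0) :
    ∫⁻ x, ENNReal.ofReal (h x) ∂M ≤ ENNReal.ofReal (1 / Real.pi * ∫ x in (0:ℝ)..Real.pi, h x) := by
  set F : ℝ → ℝ := fun x => Real.sqrt ((h x + h (-x)) / 2) with hF
  have hF2 : ∀ x, F x ^ 2 = (h x + h (-x)) / 2 := fun x =>
    Real.sq_sqrt (by have := hn x; have := hn (-x); positivity)
  have h1 := step1 M hM (F := F) (by fun_prop) (fun x => by simp [hF, add_comm])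
    (fun x => by
      have h2 : h (-(x + Real.pi)) = h (-x) := by
        have := hp (-(x + Real.pi))
        rw [← this]; congr 1; ring
      simp only [hF]
      rw [hp x, h2]) (by simp [hF, h0])
  simp_rw [hF2] at h1
  have hmeas : Measurable fun x => ENNReal.ofReal (h x) := ENNReal.measurable_ofReal.comp hc.measurable
  have h3 : ∫⁻ x, ENNReal.ofReal (h (-x)) ∂M = ∫⁻ x, ENNReal.ofReal (h x) ∂M := by
    conv_rhs => rw [← hs]
    rw [lintegral_map hmeas measurable_neg]
  have h4 : ∫⁻ x, ENNReal.ofReal ((h x + h (-x)) / 2) ∂M = ∫⁻ x, ENNReal.ofReal (h x) ∂M := by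
    have h5 : ∀ x, ENNReal.ofReal ((h x + h (-x)) / 2) =
        ENNReal.ofReal (1 / 2) * ENNReal.ofReal (h x) + ENNReal.ofReal (1 / 2) * ENNReal.ofReal (h (-x)) := by
      intro x
      rw [← ENNReal.ofReal_mul (by norm_num), ← ENNReal.ofReal_mul (by norm_num),
        ← ENNReal.ofReal_add (by have := hn x; positivity) (by have := hn (-x); positivity)]
      congr 1; ring
    simp_rw [h5]
    rw [lintegral_add_left (by fun_prop), lintegral_const_mul _ hmeas,
      lintegral_const_mul _ (by fun_prop), h3, ← add_mul, ← ENNReal.ofReal_add (by norm_num) (by norm_num)]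
    norm_num
  have h6 : ∫ x in (0:ℝ)..Real.pi, (h x + h (-x)) / 2 = ∫ x in (0:ℝ)..Real.pi, h x := by
    have h7 : ∫ x in (0:ℝ)..Real.pi, h (-x) = ∫ x in (0:ℝ)..Real.pi, h x := by
      rw [intervalIntegral.integral_comp_neg]
      have := hp.intervalIntegral_add_eq (-Real.pi) 0
      simpa using this
    have hi : IntervalIntegrable (fun x => h (-x)) volume 0 Real.pi :=
      (hc.comp continuous_neg).intervalIntegrable _ _
    rw [intervalIntegral.integral_div, intervalIntegral.integral_add (hc.intervalIntegrable _ _)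
      hi, h7]
    ring
  rw [h4, h6] at h1
  exact h1

/-- the periodic extension -/
def Per (U : Set ℝ) : Set ℝ := {x | ∃ k : ℤ, x + k * Real.pi ∈ U}

theorem per_open {U : Set ℝ} (hU : IsOpen U) : IsOpen (Per U) := by
  have : Per U = ⋃ k : ℤ, (fun x : ℝ => x + k * Real.pi) ⁻¹' U := by
    ext x; simp [Per]
  rw [this]
  exact isOpen_iUnion fun k => hU.preimage (by fun_prop)

theorem per_add {U : Set ℝ} (x : ℝ) : x + Real.pi ∈ Per U ↔ x ∈ Per U := by
  constructor
  · rintro ⟨k, hk⟩
    refine ⟨k + 1, ?_⟩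
    push_cast
    convert hk using 1; ring
  · rintro ⟨k, hk⟩
    refine ⟨k - 1, ?_⟩
    push_cast
    convert hk using 1; ring

theorem per_Ioo {U : Set ℝ} (hU : U ⊆ Set.Ioo 0 Real.pi) {x : ℝ} (hx : x ∈ Set.Ioo 0 Real.pi)
    (hx2 : x ∈ Per U) : x ∈ U := by
  obtain ⟨k, hk⟩ := hx2
  have h1 := hU hk
  have hpi := Real.pi_pos
  have hk0 : k = 0 := by
    have h2 : ((k : ℝ)) * Real.pi < 1 * Real.pi := by
      have := h1.2; have := hx.1; linarith
    have h3 : (-1 : ℝ) * Real.pi < k * Real.pi := by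
      have := h1.1; have := hx.2; linarith
    have h4 : (k : ℝ) < 1 := lt_of_mul_lt_mul_right h2 hpi.le
    have h5 : (-1 : ℝ) < k := lt_of_mul_lt_mul_right h3 hpi.le
    have h4' : k < 1 := by exact_mod_cast h4
    have h5' : -1 < k := by exact_mod_cast h5
    omega
  simpa [hk0] using hk

theorem zero_per {U : Set ℝ} (hU : U ⊆ Set.Ioo 0 Real.pi) : (0 : ℝ) ∉ Per U := by
  rintro ⟨k, hk⟩
  have h1 := hU hk
  have hpi := Real.pi_pos
  rw [zero_add] at h1
  have h4 : (k : ℝ) < 1 := by
    apply lt_of_mul_lt_mul_right _ hpi.le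
    linarith [h1.2]
  have h5 : (0 : ℝ) < k := by
    apply lt_of_mul_lt_mul_right _ hpi.le
    linarith [h1.1]
  have h4' : k < 1 := by exact_mod_cast h4
  have h5' : 0 < k := by exact_mod_cast h5
  omega

include hM hs in
theorem step3 {U : Set ℝ} (hU : IsOpen U) (hU2 : U ⊆ Set.Ioo 0 Real.pi) :
    M (Per U) ≤ ENNReal.ofReal (1 / Real.pi) * volume U := by
  set V := (Per U)ᶜ with hV
  have hVc : IsClosed V := (per_open hU).isClosed_compl
  have h0V : (0 : ℝ) ∈ V := zero_per hU2
  have hVne : V.Nonempty := ⟨0, h0V⟩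
  have hper : Function.Periodic (fun x => Metric.infDist x V) Real.pi := by
    intro x
    have h1 : V = (fun y : ℝ => y + Real.pi) '' V := by
      ext y
      simp only [Set.mem_image]
      constructor
      · intro hy
        refine ⟨y - Real.pi, ?_, by ring⟩
        intro h2
        apply hy
        rw [← per_add] at h2
        simpa using h2
      · rintro ⟨z, hz, rfl⟩
        intro h2
        rw [per_add] at h2
        exact hz h2
    have h2 : Isometry (fun y : ℝ => y + Real.pi) := by
      apply Isometry.of_dist_eq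
      intro a b
      simp
    have h3 := Metric.infDist_image h2 (x := x) (t := V)
    rw [← h1] at h3
    exact h3
  set g : ℕ → ℝ → ℝ := fun n x => min 1 ((n : ℝ) * Metric.infDist x V) with hg
  have hgc : ∀ n, Continuous (g n) := by
    intro n
    have : Continuous fun x => Metric.infDist x V := Metric.continuous_infDist_pt V
    fun_prop
  have hg0 : ∀ n x, 0 ≤ g n x := fun n x => le_min zero_le_one
    (mul_nonneg (Nat.cast_nonneg _) Metric.infDist_nonneg)
  have hg1 : ∀ n x, g n x ≤ 1 := fun n x => min_le_left _ _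
  have hgV : ∀ n x, x ∈ V → g n x = 0 := by
    intro n x hx
    simp [hg, Metric.infDist_zero_of_mem hx]
  have hlim : ∀ x, Set.indicator (Per U) (fun _ => (1 : ENNReal)) x ≤
      liminf (fun n => ENNReal.ofReal (g n x)) atTop := by
    intro x
    by_cases hx : x ∈ Per U
    · have h1 : 0 < Metric.infDist x V := by
        rw [← hVc.notMem_iff_infDist_pos hVne]
        simpa [hV] using hx
      have h2 : ∀ᶠ n : ℕ in atTop, ENNReal.ofReal (g n x) = 1 := by
        obtain ⟨N, hN⟩ := exists_nat_gt (1 / Metric.infDist x V)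
        filter_upwards [eventually_ge_atTop N] with n hn
        have h3 : 1 ≤ (n : ℝ) * Metric.infDist x V := by
          have h4 : (N : ℝ) ≤ n := by exact_mod_cast hn
          rw [div_lt_iff₀ h1] at hN
          nlinarith
        simp [hg, min_eq_left h3]
      have h5 : Tendsto (fun n => ENNReal.ofReal (g n x)) atTop (𝓝 1) :=
        tendsto_const_nhds.congr' (h2.mono fun n hn => hn.symm)
      rw [h5.liminf_eq, Set.indicator_of_mem hx]
    · rw [Set.indicator_of_notMem hx]
      exact zero_le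
  have hbd : ∀ n, ∫⁻ x, ENNReal.ofReal (g n x) ∂M ≤ ENNReal.ofReal (1 / Real.pi) * volume U := by
    intro n
    have hgp : Function.Periodic (g n) Real.pi := by
      intro x
      simp only [hg]
      rw [show Metric.infDist (x + Real.pi) V = Metric.infDist x V from hper x]
    refine (step2 M hM hs (hgc n) (hg0 n) hgp (hgV n 0 h0V)).trans ?_
    rw [ENNReal.ofReal_mul (by have := Real.pi_pos; positivity)]
    gcongr
    rw [intervalIntegral.integral_of_le Real.pi_pos.le, ofReal_integral_eq_lintegral_ofReal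
      ((hgc n).integrableOn_Ioc) (Eventually.of_forall fun x => hg0 n x)]
    rw [← restrict_Ioo_eq_restrict_Ioc]
    calc ∫⁻ x in Set.Ioo 0 Real.pi, ENNReal.ofReal (g n x)
        ≤ ∫⁻ x in Set.Ioo 0 Real.pi, Set.indicator U (fun _ => (1 : ENNReal)) x := by
          apply setLIntegral_mono' measurableSet_Ioo
          intro x hx
          by_cases hxU : x ∈ U
          · rw [Set.indicator_of_mem hxU]
            exact ENNReal.ofReal_le_one.2 (hg1 n x)
          · have : x ∈ V := fun h => hxU (per_Ioo hU2 hx h)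
            rw [hgV n x this]
            simp
      _ ≤ ∫⁻ x, Set.indicator U (fun _ => (1 : ENNReal)) x := setLIntegral_le_lintegral _ _
      _ = volume U := by
          rw [lintegral_indicator hU.measurableSet]; simp
  calc M (Per U) = ∫⁻ x, Set.indicator (Per U) (fun _ => (1 : ENNReal)) x ∂M := by
        rw [lintegral_indicator (per_open hU).measurableSet]; simp
    _ ≤ ∫⁻ x, liminf (fun n => ENNReal.ofReal (g n x)) atTop ∂M := lintegral_mono hlim
    _ ≤ liminf (fun n => ∫⁻ x, ENNReal.ofReal (g n x) ∂M) atTop :=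
        lintegral_liminf_le fun n => ENNReal.measurable_ofReal.comp (hgc n).measurable
    _ ≤ ENNReal.ofReal (1 / Real.pi) * volume U := by
        apply liminf_le_of_le
        · isBoundedDefault
        · intro b hb
          obtain ⟨n, hn⟩ := hb.exists
          exact hn.trans (hbd n)

end main

theorem PAIR : S_PAIR := by
  intro M hs hM B _ hB2
  have hpi := Real.pi_pos
  have hfin : volume B ≠ ⊤ := by
    have := measure_mono hB2 (μ := volume)
    rw [Real.volume_Ioo] at this
    exact ne_top_of_le_ne_top ENNReal.ofReal_ne_top this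
  apply ENNReal.le_of_forall_pos_le_add
  intro ε hε _
  set δ : ENNReal := ε * ENNReal.ofReal Real.pi with hδ
  have hδ0 : δ ≠ 0 := by
    rw [hδ]
    exact mul_ne_zero (by exact_mod_cast hε.ne') (by simpa using hpi)
  obtain ⟨U, hBU, hUo, hU⟩ := B.exists_isOpen_lt_add hfin hδ0
  set U' := U ∩ Set.Ioo 0 Real.pi
  have h1 := step3 M hM hs (U := U') (hUo.inter isOpen_Ioo) Set.inter_subset_right
  have h2 : {x | ∃ k : ℤ, x + k * Real.pi ∈ B} ⊆ Per U' := by
    rintro x ⟨k, hk⟩
    exact ⟨k, hBU hk, hB2 hk⟩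
  calc M {x | ∃ k : ℤ, x + k * Real.pi ∈ B} ≤ M (Per U') := measure_mono h2
    _ ≤ ENNReal.ofReal (1 / Real.pi) * volume U' := h1
    _ ≤ ENNReal.ofReal (1 / Real.pi) * (volume B + δ) := by
        gcongr
        exact (measure_mono Set.inter_subset_left).trans hU.le
    _ = ENNReal.ofReal (1 / Real.pi) * volume B + ε := by
        rw [mul_add, hδ]
        congr 1
        rw [mul_comm (ε : ENNReal), ← mul_assoc, ← ENNReal.ofReal_mul (by positivity)]
        rw [one_div_mul_cancel hpi.ne']
        simp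

end Pool.Agent.N232.BRPAIR
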