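import Pool.Agent.N661.BH.Stm3
import Pool.Agent.N661.BH.Fin2
import Pool.Agent.Y265.HY.N5
import Pool.Agent.N738.BHABS
import Pool.Agent.N814.BHASM

/-!
# Project FM (helper661), part FM/FM1: Gaussian fourth moments pass to the local limit
-/

set_option autoImplicit false
open MeasureTheory Filter Topology Complex ProbabilityTheory
open scoped ContDiff

namespace Pool.Agent.N232.FMFM1

open Pool.Agent.W745.RW (lap dx dy TF W GG CC)
open Pool.Agent.Y265.RW (sy rr)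
open Pool.Agent.Y265.HY (SY FW FD FM hyp_fourth)
open Pool.Agent.TH294.RS (TF.zero)
open Pool.Agent.N661.BR (MW lin AV)
open Pool.Agent.N661.BH (Dat HP area IsQuantumErgodic LocalLaws GaussianFourth S_FM1)
open Pool.Agent.N814.BHM
open Pool.Agent.N814.BHASM
open Pool.Agent.N738.BHABS (law_conv cut mass_le phi_int)
open Pool.Agent.N901.BRLEVY (vec co co_vec cont_co)

noncomputable section

/-! ### continuous nonnegative functionals of the derivatives -/

theorem abs_gen {Z : Type} [MeasurableSpace Z] {P : Measure Z} {X : ℕ → ℤ → ℂ → Z → ℂ}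
    {φ : ℕ → Z → ℝ} {μ : Measure MW} (d : Dat P X φ μ) {k : ℕ} (a : Fin k → ℤ)
    {G : (Fin k → ℂ) → ℝ} (hG : Continuous G) (hG0 : ∀ x, 0 ≤ G x) {K : ℝ}
    (hi : ∀ i, ∀ᶠ n in atTop, Integrable (fun z => φ i z * G (fun j => X n (a j) 0 z)) P)
    (hl : ∀ i, Tendsto (fun n => ∫ z, φ i z * G (fun j => X n (a j) 0 z) ∂P) atTop
      (𝓝 (K * ∫ z, φ i z ∂P))) :
    ∫⁻ f : MW, ENNReal.ofReal (G (fun j => W 1 f (a j) 0)) ∂μ ≤ ENNReal.ofReal K := by
  have := d.prob
  have := d.prob'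
  have hGc : Continuous fun x : EuclideanSpace ℝ (Fin k ⊕ Fin k) => G (co x) :=
    hG.comp (continuous_pi fun i => cont_co i)
  have key : ∀ T : ℝ, 0 ≤ T → ∫ f : MW, min (G (fun j => W 1 f (a j) 0)) T ∂μ ≤ K := by
    intro T hT
    have hgc : Continuous fun x : EuclideanSpace ℝ (Fin k ⊕ Fin k) => min (G (co x)) T :=
      hGc.min continuous_const
    let g : BoundedContinuousFunction (EuclideanSpace ℝ (Fin k ⊕ Fin k)) ℝ :=
      BoundedContinuousFunction.ofNormedAddCommGroup (fun x => min (G (co x)) T) hgc T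
        (fun x => by
          rw [Real.norm_eq_abs, abs_of_nonneg (le_min (hG0 _) hT)]
          exact min_le_right _ _)
    have hlim := law_conv d a g
    have hg1 : ∀ x : Fin k → ℂ, g (vec x) = min (G x) T := by
      intro x
      change min (G (co (vec x))) T = _
      have : co (vec x) = x := funext fun i => co_vec x i
      rw [this]
    simp only [hg1] at hlim
    refine le_of_forall_pos_le_add fun ε hε => ?_
    set δ : ℝ := ε / (|K| + T + 1) with hδ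
    have hδpos : 0 < δ := by positivity
    obtain ⟨i, hr⟩ := cut d hδpos
    have hm := mass_le d i
    have hr0 : 0 ≤ 1 - ∫ z, φ i z ∂P := by linarith
    have hφi := phi_int d i
    have hb2 : ∀ᶠ n in atTop, ∫ z, min (G (fun j => X n (a j) 0 z)) T ∂P ≤
        (∫ z, φ i z * G (fun j => X n (a j) 0 z) ∂P) + T * (1 - ∫ z, φ i z ∂P) := by
      filter_upwards [hi i] with n hin
      have e2 : T * (1 - ∫ z, φ i z ∂P) = ∫ z, (1 - φ i z) * T ∂P := by
        rw [integral_mul_const, integral_sub (integrable_const _) hφi]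
        simp only [integral_const, smul_eq_mul, mul_one]
        rw [probReal_univ]
        ring
      have hi2 : Integrable (fun z => (1 - φ i z) * T) P :=
        ((integrable_const _).sub hφi).mul_const _
      rw [e2, ← integral_add hin hi2]
      refine integral_mono_of_nonneg (Eventually.of_forall fun z => ?_)
        (hin.add hi2) (Eventually.of_forall fun z => ?_)
      · exact le_min (hG0 _) hT
      · have h1 := (d.w01 i z).1
        have h2 := (d.w01 i z).2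
        have h3 := min_le_left (G (fun j => X n (a j) 0 z)) T
        have h4 := min_le_right (G (fun j => X n (a j) 0 z)) T
        simp only
        nlinarith
    have hfinal := le_of_tendsto_of_tendsto hlim ((hl i).add_const (T * (1 - ∫ z, φ i z ∂P))) hb2
    refine hfinal.trans ?_
    have h5 : -(K * (1 - ∫ z, φ i z ∂P)) ≤ |K| * δ := by
      calc -(K * (1 - ∫ z, φ i z ∂P))
          ≤ |K| * (1 - ∫ z, φ i z ∂P) := by
            rw [← neg_mul]
            exact mul_le_mul_of_nonneg_right (neg_le_abs _) hr0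
        _ ≤ |K| * δ := mul_le_mul_of_nonneg_left hr (abs_nonneg _)
    have h6 : T * (1 - ∫ z, φ i z ∂P) ≤ T * δ := mul_le_mul_of_nonneg_left hr hT
    have h7 : (|K| + T) * δ ≤ ε := by
      rw [hδ, mul_div_assoc', div_le_iff₀ (by positivity)]
      nlinarith [abs_nonneg K]
    nlinarith
  -- remove the truncation
  have hmeas : Measurable fun f : MW => G (fun j => W 1 f (a j) 0) :=
    hG.measurable.comp (measurable_pi_lambda _ fun j => Pool.Agent.N661.BR.meas_W (a j) 0)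
  have hlim := lintegral_tendsto_of_tendsto_of_monotone (μ := μ)
    (f := fun (n : ℕ) (f : MW) => ENNReal.ofReal (min (G (fun j => W 1 f (a j) 0)) (n : ℝ)))
    (F := fun f : MW => ENNReal.ofReal (G (fun j => W 1 f (a j) 0)))
    (fun n => (hmeas.min measurable_const).ennreal_ofReal.aemeasurable)
    (Eventually.of_forall fun f => fun m n hmn =>
      ENNReal.ofReal_le_ofReal (min_le_min le_rfl (by exact_mod_cast hmn)))
    (Eventually.of_forall fun f => by
      refine tendsto_const_nhds.congr' ?_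
      obtain ⟨N, hN⟩ := exists_nat_ge (G (fun j => W 1 f (a j) 0))
      filter_upwards [eventually_ge_atTop N] with n hn
      rw [min_eq_left (hN.trans (by exact_mod_cast hn))])
  refine le_of_tendsto' hlim fun n => ?_
  rw [← ofReal_integral_eq_lintegral_ofReal]
  · exact ENNReal.ofReal_le_ofReal (key n (Nat.cast_nonneg n))
  · refine Integrable.of_bound (hmeas.min measurable_const).aestronglyMeasurable (n : ℝ)
      (Eventually.of_forall fun f => ?_)
    rw [Real.norm_eq_abs, abs_of_nonneg (le_min (hG0 _) (Nat.cast_nonneg n))]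
    exact min_le_right _ _
  · exact Eventually.of_forall fun f => le_min (hG0 _) (Nat.cast_nonneg n)

/-! ### fourth moments -/

variable {Ω : Set ℂ} {lam : ℕ → ℝ} {u : ℕ → ℂ → ℝ}

theorem qe' (H : Hyp Ω lam u) : ∀ φ, TF Ω φ → ∀ k : ℕ, Tendsto (fun n =>
    ∫ z, ((φ z / z.im ^ 2 : ℝ) : ℂ) *
      ((u n z : ℂ) * (FD (lam n))^[k] (fun w => (u n w : ℂ)) z)) atTop
      (𝓝 (if k = 0 then ((∫ z, φ z / z.im ^ 2 : ℝ) : ℂ) else 0)) := by
  intro φ hφ k
  have e : ∀ g : ℂ → ℂ, area Ω (fun z => (φ z : ℂ) * g z) =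
      ∫ z, ((φ z / z.im ^ 2 : ℝ) : ℂ) * g z := by
    intro g
    unfold area
    rw [setIntegral_eq_integral_of_forall_compl_eq_zero]
    · congr 1
      funext z
      push_cast
      ring
    · intro z hz
      show ((1 / z.im ^ 2 : ℝ) : ℂ) * ((φ z : ℂ) * g z) = 0
      rw [TF.zero hφ hz]
      simp
  have h := H.qe φ hφ k
  have e0 : area Ω (fun z => (φ z : ℂ)) = ((∫ z, φ z / z.im ^ 2 : ℝ) : ℂ) := by
    have := e (fun _ => 1)
    simp only [mul_one] at this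
    rw [this, integral_complex_ofReal]
  rw [e0] at h
  refine h.congr fun n => ?_
  rw [e]
  rfl

/-- all fourth moments of the ladder -/
theorem four (H : Hyp Ω lam u) (hG : GaussianFourth Ω u) {φ : ℂ → ℝ} (hφ : TF Ω φ)
    (h0 : ∀ z, 0 ≤ φ z) (a b c d : ℤ) :
    Tendsto (fun n => FM (lam n) (u n) φ a b c d) atTop
      (𝓝 (GG a b c d * ((∫ z, φ z / z.im ^ 2 : ℝ) : ℂ))) := by
  have h1 := (hyp_fourth H.op (fun z hz => H.sub hz) H.pos H.lim (fun n => (H.sm n).mono H.sub)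
    (fun n z hz => H.eq n z (H.sub hz)) (qe' H) hφ).2.2 h0 a b c d
  have h2 : Tendsto (fun n => (∫ z, φ z / z.im ^ 2 * u n z ^ 4) - 3 * (∫ z, φ z / z.im ^ 2)) atTop
      (𝓝 0) := by
    have h3 := (hG φ hφ).sub_const (3 * ∫ z, φ z / z.im ^ 2)
    rw [sub_self] at h3
    refine h3.congr fun n => ?_
    congr 2
    funext z
    ring
  rw [Metric.tendsto_atTop]
  intro ε hε
  obtain ⟨n0, hn0⟩ := eventually_atTop.1 ((h1 (ε / 2) (by positivity)).and
    (h2.eventually (gt_mem_nhds (show (0 : ℝ) < ε / 2 by positivity))))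
  refine ⟨n0, fun n hn => ?_⟩
  obtain ⟨h3, h4⟩ := hn0 n hn
  rw [dist_eq_norm]
  linarith

/-- the limits of the products of the squares -/
def g2 (i j : ℤ) : ℝ := 1 + (if i + j = 0 then 1 else 0) + (if i = j then 1 else 0)

theorem pow_even (i : ℤ) : ((-1 : ℂ)) ^ (2 * i).natAbs = 1 := by
  have : (2 * i).natAbs = 2 * i.natAbs := by omega
  rw [this, pow_mul]
  norm_num

theorem pow_even' (i : ℤ) : ((-1 : ℂ)) ^ (-(2 * i)).natAbs = 1 := by
  rw [Int.natAbs_neg]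
  exact pow_even i

theorem GG_g2 (i j : ℤ) : GG (2 * i) (-(2 * i)) (2 * j) (-(2 * j)) = ((g2 i j : ℝ) : ℂ) := by
  unfold GG CC g2
  rw [if_pos (add_neg_cancel (2 * i)), if_pos (add_neg_cancel (2 * j))]
  simp only [pow_even, pow_even']
  by_cases h1 : i + j = 0
  · have e1 : 2 * i + 2 * j = 0 := by omega
    have e2 : -(2 * i) + -(2 * j) = 0 := by omega
    rw [if_pos e1, if_pos e2, if_pos h1]
    by_cases h2 : i = j
    · have e3 : 2 * i + -(2 * j) = 0 := by omega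
      have e4 : -(2 * i) + 2 * j = 0 := by omega
      rw [if_pos e3, if_pos e4, if_pos h2]
      push_cast
      ring
    · have e3 : ¬ 2 * i + -(2 * j) = 0 := by omega
      rw [if_neg e3, if_neg h2]
      push_cast
      ring
  · have e1 : ¬ 2 * i + 2 * j = 0 := by omega
    rw [if_neg e1, if_neg h1]
    by_cases h2 : i = j
    · have e3 : 2 * i + -(2 * j) = 0 := by omega
      have e4 : -(2 * i) + 2 * j = 0 := by omega
      rw [if_pos e3, if_pos e4, if_pos h2]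
      push_cast
      ring
    · have e3 : ¬ 2 * i + -(2 * j) = 0 := by omega
      rw [if_neg e3, if_neg h2]
      push_cast
      ring

theorem FW_sq (H : Hyp Ω lam u) (n : ℕ) (i : ℤ) {z : ℂ} (hz : z ∈ Ω) :
    FW (lam n) (u n) (2 * i) z * FW (lam n) (u n) (-(2 * i)) z =
      ((‖FW (lam n) (u n) (2 * i) z‖ ^ 2 : ℝ) : ℂ) := by
  have h := H.sys.cj (2 * i) n z hz
  rw [wl_eq, wl_eq, pow_even, one_mul] at h
  rw [← h, Complex.mul_conj, Complex.normSq_eq_norm_sq]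

theorem fourR (H : Hyp Ω lam u) (hG : GaussianFourth Ω u) {φ : ℂ → ℝ} (hφ : TF Ω φ)
    (h0 : ∀ z, 0 ≤ φ z) (i j : ℤ) :
    Tendsto (fun n => ∫ z, wt φ z * (‖FW (lam n) (u n) (2 * i) z‖ ^ 2 *
      ‖FW (lam n) (u n) (2 * j) z‖ ^ 2)) atTop (𝓝 (g2 i j * ∫ z, wt φ z)) := by
  have h := four H hG hφ h0 (2 * i) (-(2 * i)) (2 * j) (-(2 * j))
  rw [GG_g2] at h
  have h1 := (Complex.continuous_re.tendsto _).comp h
  have e1 : (((g2 i j : ℝ) : ℂ) * ((∫ z, φ z / z.im ^ 2 : ℝ) : ℂ)).re = g2 i j * ∫ z, wt φ z := by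
    rw [← Complex.ofReal_mul, Complex.ofReal_re]
    rfl
  rw [e1] at h1
  refine h1.congr fun n => ?_
  rw [Function.comp_apply]
  have e2 : FM (lam n) (u n) φ (2 * i) (-(2 * i)) (2 * j) (-(2 * j)) =
      ((∫ z, wt φ z * (‖FW (lam n) (u n) (2 * i) z‖ ^ 2 *
        ‖FW (lam n) (u n) (2 * j) z‖ ^ 2) : ℝ) : ℂ) := by
    rw [← integral_complex_ofReal]
    unfold FM
    congr 1
    funext z
    by_cases hz : z ∈ Ω
    · have e3 := FW_sq H n i hz
      have e4 := FW_sq H n j hz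
      unfold wt
      rw [mul_assoc (FW (lam n) (u n) (2 * i) z * FW (lam n) (u n) (-(2 * i)) z), e3, e4]
      push_cast
      ring
    · unfold wt
      rw [TF.zero hφ hz]
      simp
  rw [e2, Complex.ofReal_re]

theorem nX (H : Hyp Ω lam u) (n : ℕ) (a : ℤ) {z : ℂ} (hz : z ∈ Ω) (q : ℝ × Bool) :
    ‖X (lam n) (u n) a 0 (z, q)‖ = ‖FW (lam n) (u n) a z‖ := by
  have hw : 1 / √(lam n) * ‖(0 : ℂ)‖ < 1 := by simp
  have hmv : Pool.Agent.N661.BH.mv (1 / √(lam n)) 0 z = z := by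
    unfold Pool.Agent.N661.BH.mv
    simp
  obtain ⟨θ, b⟩ := q
  cases b
  · have h := H.sys.cj a n z hz
    rw [wl_eq, wl_eq] at h
    have hx : X (lam n) (u n) a 0 (z, (θ, false)) =
        E θ ^ (-a) * starRingEnd ℂ (FW (lam n) (u n) a z) := by
      rw [X_false hw (H.sub hz), map_zero, mul_zero, hmv, h]
      ring
    rw [hx, norm_mul, norm_zpow, E_norm, one_zpow, one_mul, RCLike.norm_conj]
  · have hx : X (lam n) (u n) a 0 (z, (θ, true)) = E θ ^ a * FW (lam n) (u n) a z := by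
      rw [X_true hw (H.sub hz), mul_zero, hmv]
    rw [hx, norm_mul, norm_zpow, E_norm, one_zpow, one_mul]

/-- products of squares, on the probability space -/
theorem fourP (H : Hyp Ω lam u) (hG : GaussianFourth Ω u) {φ : ℂ → ℝ} (hφ : Wt Ω φ) (i j : ℤ) :
    Tendsto (fun n => ∫ p, φ p.1 * (‖X (lam n) (u n) (2 * i) 0 p‖ ^ 2 *
      ‖X (lam n) (u n) (2 * j) 0 p‖ ^ 2) ∂(P Ω)) atTop
      (𝓝 (g2 i j * ∫ p, φ p.1 ∂(P Ω))) := by
  have h2 := (fourR H hG hφ.tf (fun z => (hφ.mem z).1) i j).const_mul (mass Ω)⁻¹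
  rw [fstP H, conv1 H hφ.tf]
  have e3 : (mass Ω)⁻¹ * (g2 i j * ∫ z, wt φ z) = g2 i j * ((mass Ω)⁻¹ * ∫ z, wt φ z) := by ring
  rw [e3] at h2
  refine h2.congr fun n => ?_
  have e4 : ∀ p : ℂ × (ℝ × Bool), φ p.1 * (‖X (lam n) (u n) (2 * i) 0 p‖ ^ 2 *
      ‖X (lam n) (u n) (2 * j) 0 p‖ ^ 2) = φ p.1 * (‖FW (lam n) (u n) (2 * i) p.1‖ ^ 2 *
      ‖FW (lam n) (u n) (2 * j) p.1‖ ^ 2) := by
    rintro ⟨z, q⟩
    by_cases hz : z ∈ Ω
    · rw [nX H n _ hz q, nX H n _ hz q]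
    · show φ z * _ = φ z * _
      rw [TF.zero hφ.tf hz, zero_mul, zero_mul]
  simp only [e4]
  rw [fstP H (fun z => φ z * (‖FW (lam n) (u n) (2 * i) z‖ ^ 2 *
      ‖FW (lam n) (u n) (2 * j) z‖ ^ 2)), conv H hφ.tf]

theorem fourI (H : Hyp Ω lam u) {φ : ℂ → ℝ} (hφ : Wt Ω φ) (n : ℕ) (i j : ℤ) :
    Integrable (fun p => φ p.1 * (‖X (lam n) (u n) i 0 p‖ ^ 2 *
      ‖X (lam n) (u n) j 0 p‖ ^ 2)) (P Ω) := by
  have hw : 1 / √(lam n) * ‖(0 : ℂ)‖ < 1 := by simp
  obtain ⟨C1, h1, h2⟩ := Xb H hφ n i hw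
  obtain ⟨C2, h3, h4⟩ := Xb H hφ n j hw
  refine int_gen H hφ (((X_meas (H.sm n) i 0).norm.pow_const 2).mul
    ((X_meas (H.sm n) j 0).norm.pow_const 2)) (C := C1 ^ 2 * C2 ^ 2) (by positivity)
    fun p hp => ?_
  rw [abs_of_nonneg (by positivity)]
  exact mul_le_mul (pow_le_pow_left₀ (norm_nonneg _) (h2 p hp) 2)
    (pow_le_pow_left₀ (norm_nonneg _) (h4 p hp) 2) (by positivity) (by positivity)

theorem phiI (H : Hyp Ω lam u) {φ : ℂ → ℝ} (hφ : Wt Ω φ) :
    Integrable (fun p => φ p.1) (P Ω) := by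
  have := int_gen H hφ (G := fun _ => 1) measurable_const (C := 1) zero_le_one
    (fun z _ => by simp)
  simpa only [mul_one] using this

/-! ### the functional -/

/-- `(AV - 1)²` -/
def GN (N : ℕ) (x : Fin N → ℂ) : ℝ := (1 / (N : ℝ) * ∑ j, ‖x j‖ ^ 2 - 1) ^ 2

theorem GN_cont (N : ℕ) : Continuous (GN N) := by
  unfold GN
  fun_prop

theorem GN_exp (N : ℕ) (c : ℝ) (x : Fin N → ℂ) : c * GN N x =
    (∑ i, ∑ j, 1 / (N : ℝ) ^ 2 * (c * (‖x i‖ ^ 2 * ‖x j‖ ^ 2))) -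
      (∑ j, 2 / (N : ℝ) * (c * ‖x j‖ ^ 2)) + c := by
  unfold GN
  have e1 : ∑ i, ∑ j, 1 / (N : ℝ) ^ 2 * (c * (‖x i‖ ^ 2 * ‖x j‖ ^ 2)) =
      c * (1 / (N : ℝ) * ∑ j, ‖x j‖ ^ 2) ^ 2 := by
    rw [mul_pow, sq (∑ j, ‖x j‖ ^ 2), Finset.sum_mul_sum, ← mul_assoc, Finset.mul_sum]
    refine Finset.sum_congr rfl fun i _ => ?_
    rw [Finset.mul_sum]
    refine Finset.sum_congr rfl fun j _ => ?_
    rw [div_pow, one_pow]
    ring
  have e2 : ∑ j, 2 / (N : ℝ) * (c * ‖x j‖ ^ 2) = 2 * c * (1 / (N : ℝ) * ∑ j, ‖x j‖ ^ 2) := by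
    rw [Finset.mul_sum, Finset.mul_sum]
    refine Finset.sum_congr rfl fun j _ => ?_
    ring
  rw [e1, e2]
  ring

theorem sum_g2 (N : ℕ) (hN : 1 ≤ N) :
    ∑ i : Fin N, ∑ j : Fin N, g2 ((i : ℕ) : ℤ) ((j : ℕ) : ℤ) = (N : ℝ) ^ 2 + N + 1 := by
  rw [← Finset.sum_range fun i : ℕ => ∑ j : Fin N, g2 ((i : ℕ) : ℤ) ((j : ℕ) : ℤ)]
  have e : ∀ i ∈ Finset.range N, ∑ j : Fin N, g2 ((i : ℕ) : ℤ) ((j : ℕ) : ℤ) =
      (N : ℝ) + (if i = 0 then 1 else 0) + 1 := by
    intro i hi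
    rw [← Finset.sum_range fun j : ℕ => g2 ((i : ℕ) : ℤ) ((j : ℕ) : ℤ)]
    unfold g2
    rw [Finset.sum_add_distrib, Finset.sum_add_distrib]
    congr 1
    · congr 1
      · simp
      · by_cases h0 : i = 0
        · subst h0
          simp only [Nat.cast_zero, zero_add, Nat.cast_eq_zero, if_true]
          rw [Finset.sum_ite_eq' (Finset.range N) 0 fun _ => (1 : ℝ), if_pos (Finset.mem_range.2 hN)]
        · rw [if_neg h0]
          refine Finset.sum_eq_zero fun j _ => ?_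
          rw [if_neg]
          omega
    · simp only [Nat.cast_inj]
      rw [Finset.sum_ite_eq (Finset.range N) i fun _ => (1 : ℝ), if_pos hi]
  rw [Finset.sum_congr rfl e, Finset.sum_add_distrib, Finset.sum_add_distrib,
    Finset.sum_ite_eq' (Finset.range N) 0 fun _ => (1 : ℝ), if_pos (Finset.mem_range.2 hN)]
  simp only [Finset.sum_const, Finset.card_range, nsmul_eq_mul, mul_one]
  ring

theorem FM1 : S_FM1 := by
  intro Ω lam u H μ hμ hloc hG N hN
  obtain ⟨φ, hφ, hlim⟩ := exists_wt H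
  have hB := Pool.Agent.N87.BH.BDH
  have hI := Pool.Agent.N645.BH.ISOH
  have hQ := Pool.Agent.N717.BHQUARTH.QUARTH
  have d : Dat (P Ω) (fun n a w p => X (lam n) (u n) a w p) (fun i p => φ i p.1) μ := by
    refine ⟨probP H, hμ, fun i => ?_, fun i p => (hφ i).mem p.1, ?_,
      fun a w => ?_, fun i k c w η hη => ?_, fun i a w => ?_, fun i k c a w => ?_,
      fun i v l => ?_, fun i v hv l => ?_⟩
    · exact (hφ i).tf.1.continuous.measurable.comp measurable_fst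
    · simp only [fstP H]
      exact hlim
    · exact Eventually.of_forall fun n => (X_meas (H.sm n) a w).aestronglyMeasurable
    · exact law0 H hloc (hφ i) c w hη
    · filter_upwards [small H w] with n hn
      exact isoInt H (hφ i) n a hn
    · exact iso H hB hI (hφ i) c a w
    · exact Eventually.of_forall fun n => quartI H (hφ i) n v l
    · exact quart H hQ (hφ i) v hv l
  have hN' : (0 : ℝ) < N := by exact_mod_cast hN
  have i2 : ∀ i n (j : Fin N), Integrable (fun p => φ i p.1 *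
      ‖X (lam n) (u n) (2 * ((j : ℕ) : ℤ)) 0 p‖ ^ 2) (P Ω) := fun i n j =>
    isoInt H (hφ i) n _ (by simp)
  have l2 : ∀ i (j : Fin N), Tendsto (fun n => ∫ p, φ i p.1 *
      ‖X (lam n) (u n) (2 * ((j : ℕ) : ℤ)) 0 p‖ ^ 2 ∂(P Ω)) atTop (𝓝 (∫ p, φ i p.1 ∂(P Ω))) := by
    intro i j
    have h := iso H hB hI (hφ i) (k := 1) (fun _ => 1) (fun _ => 2 * ((j : ℕ) : ℤ)) (fun _ => 0)
    have e : (1 / (2 * Real.pi) * ∫ α in (0:ℝ)..(2 * Real.pi), ‖∑ _j : Fin 1,
        (1 : ℂ) * (sy α ^ (2 * ((j : ℕ) : ℤ)) * Complex.exp ((rr 0 α : ℂ) * I))‖ ^ 2) = 1 := by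
      have e1 : ∀ α : ℝ, ‖∑ _j : Fin 1,
          (1 : ℂ) * (sy α ^ (2 * ((j : ℕ) : ℤ)) * Complex.exp ((rr 0 α : ℂ) * I))‖ ^ 2 = 1 := by
        intro α
        rw [Fin.sum_univ_one, one_mul, norm_mul, norm_zpow, Pool.Agent.Y265.RW.sy_norm, one_zpow,
          one_mul, Complex.norm_exp_ofReal_mul_I, one_pow]
      simp only [e1]
      rw [intervalIntegral.integral_const, sub_zero, smul_eq_mul, mul_one]
      field_simp
    rw [e, one_mul] at h
    refine h.congr fun n => ?_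
    refine integral_congr_ae (Eventually.of_forall fun p => ?_)
    simp only [Fin.sum_univ_one, one_mul]
  have hexp : ∀ i n, ∫ p, φ i p.1 * GN N (fun j : Fin N =>
      X (lam n) (u n) (2 * ((j : ℕ) : ℤ) + 0) 0 p) ∂(P Ω) =
      (∑ k : Fin N, ∑ j : Fin N, 1 / (N : ℝ) ^ 2 * ∫ p, φ i p.1 *
        (‖X (lam n) (u n) (2 * ((k : ℕ) : ℤ)) 0 p‖ ^ 2 *
          ‖X (lam n) (u n) (2 * ((j : ℕ) : ℤ)) 0 p‖ ^ 2) ∂(P Ω)) -
      (∑ j : Fin N, 2 / (N : ℝ) * ∫ p, φ i p.1 *
        ‖X (lam n) (u n) (2 * ((j : ℕ) : ℤ)) 0 p‖ ^ 2 ∂(P Ω)) + ∫ p, φ i p.1 ∂(P Ω) := by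
    intro i n
    simp only [GN_exp, add_zero]
    have I1 : ∀ k j : Fin N, Integrable (fun p => 1 / (N : ℝ) ^ 2 * (φ i p.1 *
        (‖X (lam n) (u n) (2 * ((k : ℕ) : ℤ)) 0 p‖ ^ 2 *
          ‖X (lam n) (u n) (2 * ((j : ℕ) : ℤ)) 0 p‖ ^ 2))) (P Ω) := fun k j =>
      (fourI H (hφ i) n _ _).const_mul _
    have I2 : ∀ j : Fin N, Integrable (fun p => 2 / (N : ℝ) * (φ i p.1 *
        ‖X (lam n) (u n) (2 * ((j : ℕ) : ℤ)) 0 p‖ ^ 2)) (P Ω) := fun j =>
      (i2 i n j).const_mul _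
    have I3 := integrable_finsetSum Finset.univ fun k (_ : k ∈ Finset.univ) =>
      integrable_finsetSum Finset.univ fun j (_ : j ∈ Finset.univ) => I1 k j
    have I4 := integrable_finsetSum Finset.univ fun j (_ : j ∈ Finset.univ) => I2 j
    have I5 : Integrable (fun p => (∑ k : Fin N, ∑ j : Fin N, 1 / (N : ℝ) ^ 2 * (φ i p.1 *
        (‖X (lam n) (u n) (2 * ((k : ℕ) : ℤ)) 0 p‖ ^ 2 *
          ‖X (lam n) (u n) (2 * ((j : ℕ) : ℤ)) 0 p‖ ^ 2))) - ∑ j : Fin N, 2 / (N : ℝ) *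
            (φ i p.1 * ‖X (lam n) (u n) (2 * ((j : ℕ) : ℤ)) 0 p‖ ^ 2)) (P Ω) := I3.sub I4
    rw [integral_add I5 (phiI H (hφ i)), integral_sub I3 I4,
      integral_finsetSum _ fun k _ => integrable_finsetSum _ fun j _ => I1 k j,
      integral_finsetSum _ fun j _ => I2 j]
    congr 2
    · refine Finset.sum_congr rfl fun k _ => ?_
      rw [integral_finsetSum _ fun j _ => I1 k j]
      exact Finset.sum_congr rfl fun j _ => integral_const_mul _ _
    · exact Finset.sum_congr rfl fun j _ => integral_const_mul _ _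
  have h := abs_gen d (fun j : Fin N => 2 * ((j : ℕ) : ℤ) + 0) (GN_cont N)
    (fun x => by unfold GN; positivity) (K := ((N : ℝ) + 1) / (N : ℝ) ^ 2)
    (fun i => Eventually.of_forall fun n => by
      have hw : 1 / √(lam n) * ‖(0 : ℂ)‖ < 1 := by simp
      choose C hC0 hC using fun a => Xb H (hφ i) n a hw
      refine int_gen H (hφ i) ((GN_cont N).measurable.comp
        (measurable_pi_lambda _ fun j => X_meas (H.sm n) _ 0))
        (C := (1 / (N : ℝ) * ∑ j : Fin N, C (2 * ((j : ℕ) : ℤ) + 0) ^ 2 + 1) ^ 2)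
        (by positivity) fun p hp => ?_
      have hb : 1 / (N : ℝ) * ∑ j : Fin N, ‖X (lam n) (u n) (2 * ((j : ℕ) : ℤ) + 0) 0 p‖ ^ 2 ≤
          1 / (N : ℝ) * ∑ j : Fin N, C (2 * ((j : ℕ) : ℤ) + 0) ^ 2 := by
        refine mul_le_mul_of_nonneg_left (Finset.sum_le_sum fun j _ => ?_) (by positivity)
        exact pow_le_pow_left₀ (norm_nonneg _) (hC _ p hp) 2
      have hb0 : 0 ≤ 1 / (N : ℝ) *
          ∑ j : Fin N, ‖X (lam n) (u n) (2 * ((j : ℕ) : ℤ) + 0) 0 p‖ ^ 2 := by positivity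
      show |(1 / (N : ℝ) * ∑ j : Fin N, ‖X (lam n) (u n) (2 * ((j : ℕ) : ℤ) + 0) 0 p‖ ^ 2 - 1) ^ 2| ≤
        (1 / (N : ℝ) * ∑ j : Fin N, C (2 * ((j : ℕ) : ℤ) + 0) ^ 2 + 1) ^ 2
      rw [abs_of_nonneg (by positivity), ← sq_abs]
      refine pow_le_pow_left₀ (abs_nonneg _) (abs_le.2 ⟨by linarith, by linarith⟩) 2)
    (fun i => by
      refine Tendsto.congr (fun n => (hexp i n).symm) ?_
      have h1 := (((tendsto_finsetSum Finset.univ fun (k : Fin N) _ =>
        tendsto_finsetSum Finset.univ fun (j : Fin N) _ =>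
          (fourP H hG (hφ i) ((k : ℕ) : ℤ) ((j : ℕ) : ℤ)).const_mul (1 / (N : ℝ) ^ 2)).sub
        (tendsto_finsetSum Finset.univ fun (j : Fin N) _ => (l2 i j).const_mul (2 / (N : ℝ)))).add_const
          (∫ p, φ i p.1 ∂(P Ω)))
      convert h1 using 2
      have e1 : ∑ k : Fin N, ∑ j : Fin N, 1 / (N : ℝ) ^ 2 *
          (g2 ((k : ℕ) : ℤ) ((j : ℕ) : ℤ) * ∫ p, φ i p.1 ∂(P Ω)) =
          1 / (N : ℝ) ^ 2 * ((N : ℝ) ^ 2 + N + 1) * ∫ p, φ i p.1 ∂(P Ω) := by
        rw [← sum_g2 N hN, Finset.mul_sum, Finset.sum_mul]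
        refine Finset.sum_congr rfl fun k _ => ?_
        rw [Finset.mul_sum, Finset.sum_mul]
        exact Finset.sum_congr rfl fun j _ => by ring
      rw [e1, Finset.sum_const, Finset.card_univ, Fintype.card_fin, nsmul_eq_mul]
      field_simp
      ring)
  refine le_trans (le_of_eq (lintegral_congr fun f => ?_)) h
  congr 1
  unfold GN AV
  rw [Finset.sum_range]

end

end Pool.Agent.N232.FMFM1
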