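import Pool.Agent.N661.BH.Stm3
import Pool.Agent.N916.BRSEC
import Pool.Agent.N507.BRGN
import Pool.Agent.N344.BRNUL
import Pool.Agent.N141.BRERG4

/-!
# Project FM (helper661), part FM/PLW: plane waves make the averages `AV` fluctuate
-/

set_option autoImplicit false
open MeasureTheory Filter Topology Complex ProbabilityTheory
open scoped ContDiff

namespace Pool.Agent.N232.FMPLW

open Pool.Agent.N661.BR
open Pool.Agent.N916.BR (PK Y tau sb sec_zero_eq sec_ind approx Y_meas Y_single tau_single sb_norm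
  single_mem tau_cont tau_bd m_nonneg)
open Pool.Agent.W745.RW (lap dx dy TF Dp Dm W Sol Sys)

noncomputable section

/-! ### limits of second moments -/

theorem pw {E : Type*} [NormedAddCommGroup E] (a b : E) (δ : ℝ) (hδ : 0 < δ) :
    |‖a + b‖ ^ 2 - ‖a‖ ^ 2| ≤ δ * ‖a‖ ^ 2 + (1 + 1 / δ) * ‖b‖ ^ 2 := by
  have h1 : |‖a + b‖ - ‖a‖| ≤ ‖b‖ := by
    have := abs_norm_sub_norm_le (a + b) a
    rwa [add_sub_cancel_left] at this
  have h2 : |‖a + b‖ + ‖a‖| ≤ 2 * ‖a‖ + ‖b‖ := by
    rw [abs_of_nonneg (by positivity)]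
    linarith [norm_add_le a b]
  have h3 : |‖a + b‖ ^ 2 - ‖a‖ ^ 2| ≤ ‖b‖ * (2 * ‖a‖ + ‖b‖) := by
    have : ‖a + b‖ ^ 2 - ‖a‖ ^ 2 = (‖a + b‖ - ‖a‖) * (‖a + b‖ + ‖a‖) := by ring
    rw [this, abs_mul]
    exact mul_le_mul h1 h2 (abs_nonneg _) (norm_nonneg _)
  have h4 : 2 * (‖a‖ * ‖b‖) ≤ δ * ‖a‖ ^ 2 + 1 / δ * ‖b‖ ^ 2 := by
    have h5 : 0 ≤ 1 / δ * (δ * ‖a‖ - ‖b‖) ^ 2 := by positivity
    have h6 : 1 / δ * (δ * ‖a‖ - ‖b‖) ^ 2 =
        δ * ‖a‖ ^ 2 + 1 / δ * ‖b‖ ^ 2 - 2 * (‖a‖ * ‖b‖) := by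
      field_simp
      ring
    linarith
  calc _ ≤ ‖b‖ * (2 * ‖a‖ + ‖b‖) := h3
    _ = 2 * (‖a‖ * ‖b‖) + ‖b‖ ^ 2 := by ring
    _ ≤ _ := by linarith

theorem sq_lim {Z : Type*} [MeasurableSpace Z] {P : Measure Z} {E : Type*}
    [NormedAddCommGroup E] {a : Z → E} {b : ℕ → Z → E}
    (ha : AEStronglyMeasurable a P) (hb : ∀ n, AEStronglyMeasurable (b n) P)
    (ia : Integrable (fun x => ‖a x‖ ^ 2) P)
    (ib : ∀ᶠ n in atTop, Integrable (fun x => ‖b n x‖ ^ 2) P)
    (lb : Tendsto (fun n => ∫ x, ‖b n x‖ ^ 2 ∂P) atTop (𝓝 0)) :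
    (∀ᶠ n in atTop, Integrable (fun x => ‖a x + b n x‖ ^ 2) P) ∧
    Tendsto (fun n => ∫ x, ‖a x + b n x‖ ^ 2 ∂P) atTop (𝓝 (∫ x, ‖a x‖ ^ 2 ∂P)) := by
  have hi : ∀ n, Integrable (fun x => ‖b n x‖ ^ 2) P →
      Integrable (fun x => ‖a x + b n x‖ ^ 2) P := by
    intro n hn
    refine Integrable.mono' ((ia.const_mul 2).add (hn.const_mul 2))
      ((ha.add (hb n)).norm.pow 2) (Eventually.of_forall fun x => ?_)
    rw [Real.norm_of_nonneg (by positivity)]
    have h1 := abs_le.1 (pw (a x) (b n x) 1 one_pos)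
    simp only [Pi.add_apply]
    linarith [h1.2]
  refine ⟨ib.mono hi, ?_⟩
  set A := ∫ x, ‖a x‖ ^ 2 ∂P with hA
  have hA0 : 0 ≤ A := integral_nonneg fun x => by positivity
  rw [Metric.tendsto_atTop]
  intro ε hε
  set δ : ℝ := ε / (2 * (A + 1)) with hδ
  have hδ0 : 0 < δ := by positivity
  have hδA : δ * A < ε / 2 := by
    have : δ * (A + 1) = ε / 2 := by rw [hδ]; field_simp
    nlinarith
  have h1 : Tendsto (fun n => (1 + 1 / δ) * ∫ x, ‖b n x‖ ^ 2 ∂P) atTop (𝓝 0) := by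
    simpa using lb.const_mul (1 + 1 / δ)
  have h2 : ∀ᶠ n in atTop, (1 + 1 / δ) * ∫ x, ‖b n x‖ ^ 2 ∂P < ε / 2 :=
    h1.eventually (gt_mem_nhds (by positivity))
  obtain ⟨n0, hn0⟩ := eventually_atTop.1 (h2.and ib)
  refine ⟨n0, fun n hn => ?_⟩
  obtain ⟨h3, h4⟩ := hn0 n hn
  rw [Real.dist_eq, hA, ← integral_sub (hi n h4) ia]
  calc |∫ x, (‖a x + b n x‖ ^ 2 - ‖a x‖ ^ 2) ∂P|
      ≤ ∫ x, |‖a x + b n x‖ ^ 2 - ‖a x‖ ^ 2| ∂P := abs_integral_le_integral_abs
    _ ≤ ∫ x, (δ * ‖a x‖ ^ 2 + (1 + 1 / δ) * ‖b n x‖ ^ 2) ∂P :=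
        integral_mono ((hi n h4).sub ia).abs ((ia.const_mul _).add (h4.const_mul _))
          fun x => pw (a x) (b n x) δ hδ0
    _ = δ * A + (1 + 1 / δ) * ∫ x, ‖b n x‖ ^ 2 ∂P := by
        rw [integral_add (ia.const_mul _) (h4.const_mul _), integral_const_mul,
          integral_const_mul]
    _ < ε := by linarith

/-! ### the second moments of the derivatives -/

section
variable {μ : Measure MW} [IsProbabilityMeasure μ] {m : ℝ} {ν : Measure ℝ} [IsProbabilityMeasure ν]

theorem fin_sq {Z : Type*} [MeasurableSpace Z] {P : Measure Z} {g : Z → ℝ}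
    (hg : AEStronglyMeasurable g P) (h0 : ∀ x, 0 ≤ g x)
    (h : ∫⁻ x, ENNReal.ofReal (g x) ∂P < ⊤) : Integrable g P := by
  refine ⟨hg, ?_⟩
  rw [hasFiniteIntegral_iff_ofReal (Eventually.of_forall h0)]
  exact h

theorem eq_ind (hI : ∀ w : ℂ, Integrable (fun f : MW => f w ^ 2) μ)
    (h2 : ∀ w w' : ℂ, ∫ f : MW, f w * f w' ∂μ = m * cov ν (w - w')) (K : ℕ) :
    ∀ s ∈ PK K, Integrable (fun f : MW => ‖Y f s‖ ^ 2) μ ∧
      ∫ f : MW, ‖Y f s‖ ^ 2 ∂μ =
        m * ∫ α, (‖tau α s‖ ^ 2 + ‖tau (α + Real.pi) s‖ ^ 2) / 2 ∂ν := by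
  have hm := m_nonneg h2
  induction K with
  | zero => exact fun s hs => sec_zero_eq hI h2 s hs
  | succ K ih =>
    intro s hs
    obtain ⟨B, hB, hb⟩ := tau_bd s
    have ia : Integrable (fun f : MW => ‖Y f s‖ ^ 2) μ :=
      fin_sq ((Y_meas s).norm.pow_const 2).aestronglyMeasurable (fun f => by positivity)
        ((sec_ind hI h2 (K + 1) s hs B hB hb).trans_lt ENNReal.ofReal_lt_top)
    refine ⟨ia, ?_⟩
    obtain ⟨t, ht, hY, C, hC, htau⟩ := approx K s hs
    have htm : ∀ n, t n ∈ PK (K + 1) := fun n =>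
      Finsupp.supported_mono (fun p hp => by
        have : p.1.natAbs ≤ K := hp
        show p.1.natAbs ≤ K + 1
        omega) (ht n)
    have hlb : ∀ n : ℕ, ∫⁻ f : MW, ENNReal.ofReal (‖Y f (t n - s)‖ ^ 2) ∂μ ≤
        ENNReal.ofReal (m * (C * (1 / ((n : ℝ) + 1))) ^ 2) := fun n =>
      sec_ind hI h2 (K + 1) (t n - s) ((PK (K + 1)).sub_mem (htm n) hs) _ (by positivity)
        fun α => by rw [map_sub]; exact htau n α
    have ib : ∀ n, Integrable (fun f : MW => ‖Y f (t n - s)‖ ^ 2) μ := fun n =>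
      fin_sq ((Y_meas _).norm.pow_const 2).aestronglyMeasurable (fun f => by positivity)
        ((hlb n).trans_lt ENNReal.ofReal_lt_top)
    have h7 : Tendsto (fun n : ℕ => C * (1 / ((n : ℝ) + 1))) atTop (𝓝 0) := by
      simpa using tendsto_one_div_add_atTop_nhds_zero_nat.const_mul C
    have lb : Tendsto (fun n => ∫ f : MW, ‖Y f (t n - s)‖ ^ 2 ∂μ) atTop (𝓝 0) := by
      have h8 : Tendsto (fun n : ℕ => m * (C * (1 / ((n : ℝ) + 1))) ^ 2) atTop (𝓝 0) := by
        simpa using (h7.pow 2).const_mul m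
      refine squeeze_zero (fun n => integral_nonneg fun f => by positivity) (fun n => ?_) h8
      have h9 := hlb n
      rw [← ofReal_integral_eq_lintegral_ofReal (ib n) (Eventually.of_forall fun f => by
        positivity)] at h9
      exact (ENNReal.ofReal_le_ofReal_iff (by positivity)).1 h9
    have h10 := (sq_lim (a := fun f : MW => Y f s) (b := fun n (f : MW) => Y f (t n - s))
      (Y_meas s).aestronglyMeasurable (fun n => (Y_meas _).aestronglyMeasurable) ia
      (Eventually.of_forall ib) lb).2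
    -- the limit of the symbols
    have it : ∀ u : Pool.Agent.N916.BR.Cb, Integrable (fun α => (‖tau α u‖ ^ 2 + ‖tau (α + Real.pi) u‖ ^ 2) / 2) ν := by
      intro u
      obtain ⟨B', hB', hb'⟩ := tau_bd u
      refine Integrable.mono' (integrable_const (B' ^ 2)) ?_ (Eventually.of_forall fun α => ?_)
      · exact (((((tau_cont u).norm.pow 2).add (((tau_cont u).comp
          (continuous_id.add continuous_const)).norm.pow 2)).div_const 2)).aestronglyMeasurable
      · rw [Real.norm_of_nonneg (by positivity)]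
        have h5 : ‖tau α u‖ ^ 2 ≤ B' ^ 2 := pow_le_pow_left₀ (norm_nonneg _) (hb' α) 2
        have h6 : ‖tau (α + Real.pi) u‖ ^ 2 ≤ B' ^ 2 :=
          pow_le_pow_left₀ (norm_nonneg _) (hb' _) 2
        linarith
    have h11 : Tendsto (fun n => ∫ α, (‖tau α (t n)‖ ^ 2 + ‖tau (α + Real.pi) (t n)‖ ^ 2) / 2 ∂ν)
        atTop (𝓝 (∫ α, (‖tau α s‖ ^ 2 + ‖tau (α + Real.pi) s‖ ^ 2) / 2 ∂ν)) := by
      have hpt : ∀ α : ℝ, Tendsto (fun n => tau α (t n)) atTop (𝓝 (tau α s)) := by
        intro α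
        rw [tendsto_iff_norm_sub_tendsto_zero]
        exact squeeze_zero (fun n => norm_nonneg _) (fun n => htau n α) h7
      refine tendsto_integral_of_dominated_convergence (fun _ => (B + C) ^ 2)
        (fun n => (it (t n)).aestronglyMeasurable) (integrable_const _) (fun n =>
          Eventually.of_forall fun α => ?_) (Eventually.of_forall fun α => ?_)
      · have hn : C * (1 / ((n : ℝ) + 1)) ≤ C := by
          refine mul_le_of_le_one_right hC ?_
          rw [div_le_one (by positivity)]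
          linarith [(Nat.cast_nonneg n : (0 : ℝ) ≤ n)]
        have hbd : ∀ α : ℝ, ‖tau α (t n)‖ ≤ B + C := fun α =>
          calc ‖tau α (t n)‖ = ‖tau α s + (tau α (t n) - tau α s)‖ := by rw [add_sub_cancel]
            _ ≤ ‖tau α s‖ + ‖tau α (t n) - tau α s‖ := norm_add_le _ _
            _ ≤ _ := add_le_add (hb α) ((htau n α).trans hn)
        rw [Real.norm_of_nonneg (by positivity)]
        have h5 : ‖tau α (t n)‖ ^ 2 ≤ (B + C) ^ 2 := pow_le_pow_left₀ (norm_nonneg _) (hbd α) 2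
        have h6 : ‖tau (α + Real.pi) (t n)‖ ^ 2 ≤ (B + C) ^ 2 :=
          pow_le_pow_left₀ (norm_nonneg _) (hbd _) 2
        linarith
      · exact ((((hpt α).norm.pow 2).add ((hpt _).norm.pow 2)).div_const 2)
    refine tendsto_nhds_unique h10 ((h11.const_mul m).congr fun n => ?_)
    rw [← (ih (t n) (ht n)).2]
    refine integral_congr_ae (Eventually.of_forall fun f => ?_)
    show ‖Y f (t n)‖ ^ 2 = ‖Y f s + Y f (t n - s)‖ ^ 2
    rw [map_sub, add_sub_cancel]

/-- the second moments of the derivatives -/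
theorem sec_eq (hI : ∀ w : ℂ, Integrable (fun f : MW => f w ^ 2) μ)
    (h2 : ∀ w w' : ℂ, ∫ f : MW, f w * f w' ∂μ = m * cov ν (w - w')) (a : ℤ) (w : ℂ) :
    Integrable (fun f : MW => ‖W 1 f a w‖ ^ 2) μ ∧ ∫ f : MW, ‖W 1 f a w‖ ^ 2 ∂μ = m := by
  obtain ⟨h3, h4⟩ := eq_ind hI h2 a.natAbs (Finsupp.single (a, w) 1) (single_mem _ _ le_rfl 1)
  simp only [Y_single, tau_single, one_mul, sb_norm] at h3 h4
  refine ⟨h3, h4.trans ?_⟩
  norm_num

end

/-! ### the averages -/

theorem AV_meas (N : ℕ) : Measurable (fun f : MW => AV 0 N f 0) := by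
  unfold AV
  exact (Finset.measurable_fun_sum _ fun j _ => (meas_W _ _).norm.pow_const 2).const_mul _

theorem QQ_AV (N : ℕ) (f : MW) : QQ 1 f N 0 0 = ((f 0 ^ 2 - AV 0 N f 0 : ℝ) : ℂ) := by
  unfold QQ AV
  have h : ∀ j ∈ Finset.range N, W 1 f (2 * (j : ℤ)) 0 * W 1 f (2 * 0 - 2 * (j : ℤ)) 0 =
      ((‖W 1 f (2 * (j : ℤ) + 0) 0‖ ^ 2 : ℝ) : ℂ) := by
    intro j _
    have h1 := conj_W f (2 * (j : ℤ)) 0
    have h2 : ((-1 : ℂ)) ^ (2 * (j : ℤ)).natAbs = 1 := by
      have : (2 * (j : ℤ)).natAbs = 2 * j := by omega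
      rw [this, pow_mul]
      norm_num
    rw [h2, one_mul] at h1
    have h3 : (2 * 0 - 2 * (j : ℤ)) = -(2 * (j : ℤ)) := by ring
    rw [h3, ← h1, Complex.mul_conj, Complex.normSq_eq_norm_sq, add_zero]
  rw [Finset.sum_congr rfl h]
  simp only [mul_zero, W_zero]
  push_cast
  ring

/-! ### the kernel -/

/-- the kernel `(1/N) ∑_{j<N} cos (2 j x)` -/
def DN (N : ℕ) (x : ℝ) : ℝ := 1 / (N : ℝ) * ∑ j ∈ Finset.range N, Real.cos ((2 * (j : ℝ)) * x)

theorem CP_lin (v : ℤ →₀ ℝ) (x : ℝ) :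
    CP v x = Finsupp.linearCombination ℝ (fun j : ℤ => Real.cos ((j : ℝ) * x)) v := by
  unfold CP
  rw [Finsupp.linearCombination_apply, Finsupp.sum]
  rfl

theorem CP_v (N : ℕ) (x : ℝ) : CP (Finsupp.single 0 1 - vA 0 N) x = 1 - DN N x := by
  rw [CP_lin, map_sub, Finsupp.linearCombination_single]
  unfold vA DN
  rw [map_sum, Finset.mul_sum]
  congr 1
  · simp
  · refine Finset.sum_congr rfl fun j _ => ?_
    rw [Finsupp.linearCombination_single, smul_eq_mul]
    push_cast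
    rw [add_zero]

theorem EZ_v (N : ℕ) (hN : 1 ≤ N) : EZ (Finsupp.single 0 1 - vA 0 N) := by
  constructor
  · intro j hj
    have h1 := Finsupp.support_sub hj
    rw [Finset.mem_union] at h1
    rcases h1 with h | h
    · have := Finsupp.support_single_subset h
      rw [Finset.mem_singleton] at this
      rw [this]
      exact Even.zero
    · unfold vA at h
      have h2 := Finsupp.support_finsetSum h
      rw [Finset.mem_biUnion] at h2
      obtain ⟨i, _, hi⟩ := h2
      have := Finsupp.support_single_subset hi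
      rw [Finset.mem_singleton] at this
      rw [this, add_zero]
      exact even_two_mul _
  · exact (Pool.Agent.N507.BRGN.GN.1 N hN).1.1

theorem DN_bd (N : ℕ) (x : ℝ) : |DN N x| ≤ 1 := by
  unfold DN
  rw [abs_mul, abs_of_nonneg (by positivity)]
  have h : |∑ j ∈ Finset.range N, Real.cos ((2 * (j : ℝ)) * x)| ≤ (N : ℝ) := by
    refine (Finset.abs_sum_le_sum_abs _ _).trans ?_
    refine (Finset.sum_le_sum fun j _ => Real.abs_cos_le_one _).trans ?_
    simp
  rcases Nat.eq_zero_or_pos N with rfl | hN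
  · simp
  · have hN' : (0 : ℝ) < N := by exact_mod_cast hN
    calc 1 / (N : ℝ) * _ ≤ 1 / (N : ℝ) * N := mul_le_mul_of_nonneg_left h (by positivity)
      _ = 1 := by field_simp

theorem sin_sum (N : ℕ) (x : ℝ) : 2 * Real.sin x * ∑ j ∈ Finset.range N,
    Real.cos ((2 * (j : ℝ)) * x) = Real.sin ((2 * (N : ℝ) - 1) * x) + Real.sin x := by
  induction N with
  | zero =>
    simp only [Finset.range_zero, Finset.sum_empty, mul_zero, Nat.cast_zero]
    rw [show (0 - 1) * x = -x by ring, Real.sin_neg]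
    ring
  | succ N ih =>
    rw [Finset.sum_range_succ, mul_add, ih]
    push_cast
    have h := Real.sin_sub_sin ((2 * ((N : ℝ) + 1) - 1) * x) ((2 * (N : ℝ) - 1) * x)
    rw [show ((2 * ((N : ℝ) + 1) - 1) * x - (2 * (N : ℝ) - 1) * x) / 2 = x by ring,
      show ((2 * ((N : ℝ) + 1) - 1) * x + (2 * (N : ℝ) - 1) * x) / 2 = 2 * (N : ℝ) * x by ring]
      at h
    linarith

theorem DN_one (N : ℕ) (hN : 1 ≤ N) (x : ℝ) (hx : Real.sin x = 0) : DN N x = 1 := by
  unfold DN
  have h : ∀ j ∈ Finset.range N, Real.cos ((2 * (j : ℝ)) * x) = 1 := by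
    intro j _
    obtain ⟨n, hn⟩ := Real.sin_eq_zero_iff.1 hx
    rw [← hn]
    have := Real.cos_int_mul_two_pi ((j : ℤ) * n)
    rw [← this]
    congr 1
    push_cast
    ring
  rw [Finset.sum_congr rfl h, Finset.sum_const, Finset.card_range, nsmul_eq_mul, mul_one]
  have hN' : (0 : ℝ) < N := by exact_mod_cast hN
  field_simp

theorem DN_zero (x : ℝ) (hx : Real.sin x ≠ 0) : Tendsto (fun N => DN N x) atTop (𝓝 0) := by
  have h1 : Tendsto (fun N : ℕ => 1 / (N : ℝ) * (1 / |Real.sin x|)) atTop (𝓝 0) := by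
    simpa using tendsto_one_div_atTop_nhds_zero_nat.mul_const (1 / |Real.sin x|)
  refine squeeze_zero_norm (fun N => ?_) h1
  unfold DN
  rw [Real.norm_eq_abs, abs_mul, abs_of_nonneg (by positivity)]
  refine mul_le_mul_of_nonneg_left ?_ (by positivity)
  have hx' : 0 < |Real.sin x| := abs_pos.2 hx
  rw [le_div_iff₀ hx']
  have h2 := congrArg abs (sin_sum N x)
  rw [abs_mul, abs_mul, abs_two] at h2
  have h3 : |Real.sin ((2 * (N : ℝ) - 1) * x) + Real.sin x| ≤ 2 := by
    refine (abs_add_le _ _).trans ?_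
    linarith [Real.abs_sin_le_one ((2 * (N : ℝ) - 1) * x), Real.abs_sin_le_one x]
  nlinarith

/-- the limit of the kernels -/
theorem ker_lim (ν : Measure ℝ) [IsProbabilityMeasure ν] {N : ℕ → ℕ} (hN : Tendsto N atTop atTop) :
    Tendsto (fun k => ∫ p : ℝ × ℝ, CP (Finsupp.single 0 1 - vA 0 (N k)) (p.1 - p.2) ^ 2
      ∂(ν.prod ν)) atTop (𝓝 (1 - parallel ν)) := by
  have hS : MeasurableSet {p : ℝ × ℝ | Real.sin (p.1 - p.2) = 0} :=
    (Real.measurable_sin.comp (measurable_fst.sub measurable_snd)) (measurableSet_singleton 0)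
  have e : 1 - parallel ν = ∫ p : ℝ × ℝ,
      (1 - ({p : ℝ × ℝ | Real.sin (p.1 - p.2) = 0}.indicator (fun _ => (1 : ℝ)) p))
        ∂(ν.prod ν) := by
    rw [integral_sub (integrable_const _) ((integrable_const (1 : ℝ)).indicator hS),
      integral_indicator_const _ hS]
    unfold parallel
    simp
  rw [e]
  refine tendsto_integral_of_dominated_convergence (fun _ => (4 : ℝ)) (fun k => ?_)
    (integrable_const _) (fun k => Eventually.of_forall fun p => ?_)
    (Eventually.of_forall fun p => ?_)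
  · have hc : Continuous (CP (Finsupp.single 0 1 - vA 0 (N k))) := by
      unfold CP
      fun_prop
    exact ((hc.comp (continuous_fst.sub continuous_snd)).pow 2).aestronglyMeasurable
  · rw [CP_v, Real.norm_of_nonneg (by positivity)]
    have h := abs_le.1 (DN_bd (N k) (p.1 - p.2))
    nlinarith [h.1, h.2]
  · simp only [CP_v]
    by_cases hp : Real.sin (p.1 - p.2) = 0
    · rw [Set.indicator_of_mem (by exact hp)]
      refine tendsto_const_nhds.congr' ?_
      filter_upwards [hN.eventually_ge_atTop 1] with k hk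
      rw [DN_one _ hk _ hp]
      norm_num
    · rw [Set.indicator_of_notMem (by exact hp)]
      have h := (((DN_zero _ hp).comp hN).const_sub 1).pow 2
      simpa using h

/-! ### conclusion -/

theorem cov0 (ν : Measure ℝ) [IsProbabilityMeasure ν] : cov ν 0 = 1 := by
  unfold cov
  simp

theorem PLW : Pool.Agent.N661.BH.S_PLW := by
  intro μ hμ hst her h4 m ν hν hcov N hN hlim
  -- integrability of the squares
  have h4w : Integrable (fun f : MW => f 0 ^ 2) μ := by
    refine Integrable.mono' ((integrable_const (1 : ℝ)).add h4)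
      ((meas_eval 0).pow_const 2).aestronglyMeasurable (Eventually.of_forall fun f => ?_)
    rw [Real.norm_of_nonneg (by positivity)]
    simp only [Pi.add_apply]
    nlinarith [sq_nonneg (f 0 ^ 2 - 1)]
  have hI : ∀ w : ℂ, Integrable (fun f : MW => f w ^ 2) μ := by
    intro w
    have h := hst w
    rw [← h, integrable_map_measure ((meas_eval 0).pow_const 2).aestronglyMeasurable
      (meas_shift w).aemeasurable] at h4w
    refine h4w.congr (Eventually.of_forall fun f => ?_)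
    show (f (0 + w)) ^ 2 = f w ^ 2
    rw [zero_add]
  have hsec := fun a : ℤ => sec_eq hI hcov a 0
  -- the averages
  have iAV : ∀ k, Integrable (fun f : MW => AV 0 k f 0) μ := by
    intro k
    unfold AV
    exact (integrable_finsetSum _ fun j _ => (hsec _).1).const_mul _
  have eAV : ∀ k : ℕ, 1 ≤ k → ∫ f : MW, AV 0 k f 0 ∂μ = m := by
    intro k hk
    unfold AV
    rw [integral_const_mul, integral_finsetSum _ fun j _ => (hsec _).1,
      Finset.sum_congr rfl fun j _ => (hsec _).2, Finset.sum_const, Finset.card_range,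
      nsmul_eq_mul]
    have hk' : (0 : ℝ) < k := by exact_mod_cast hk
    field_simp
  have mAV : ∀ k, Measurable (fun f : MW => (AV 0 (N k) f 0 - 1) ^ 2) := fun k =>
    ((AV_meas _).sub_const 1).pow_const 2
  have i2 : ∀ᶠ k in atTop, Integrable (fun f : MW => (AV 0 (N k) f 0 - 1) ^ 2) μ := by
    filter_upwards [hlim.eventually (gt_mem_nhds (by norm_num : (0 : ENNReal) < 1))] with k hk
    exact fin_sq (mAV k).aestronglyMeasurable (fun f => by positivity)
      (hk.trans ENNReal.one_lt_top)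
  have l2 : Tendsto (fun k => ∫ f : MW, (AV 0 (N k) f 0 - 1) ^ 2 ∂μ) atTop (𝓝 0) := by
    have h := (ENNReal.tendsto_toReal ENNReal.zero_ne_top).comp hlim
    rw [ENNReal.toReal_zero] at h
    refine h.congr fun k => ?_
    rw [Function.comp_apply, ← integral_eq_lintegral_of_nonneg_ae
      (Eventually.of_forall fun f => by positivity) (mAV k).aestronglyMeasurable]
  have hm1 : m = 1 := by
    have h : ∀ᶠ k in atTop, (m - 1) ^ 2 ≤ ∫ f : MW, (AV 0 (N k) f 0 - 1) ^ 2 ∂μ := by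
      filter_upwards [i2, hN.eventually_ge_atTop 1] with k h1 h2
      have h3 : 0 ≤ ∫ f : MW, ((AV 0 (N k) f 0 - 1) - (m - 1)) ^ 2 ∂μ :=
        integral_nonneg fun f => by positivity
      have h5 : ∫ f : MW, ((AV 0 (N k) f 0 - 1) - (m - 1)) ^ 2 ∂μ =
          ∫ f : MW, (AV 0 (N k) f 0 - 1) ^ 2 ∂μ - (m - 1) ^ 2 := by
        have e : (fun f : MW => ((AV 0 (N k) f 0 - 1) - (m - 1)) ^ 2) = fun f : MW =>
            (AV 0 (N k) f 0 - 1) ^ 2 - ((2 * (m - 1)) * AV 0 (N k) f 0 - (m ^ 2 - 1)) := by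
          funext f
          ring
        have i3 : Integrable (fun f : MW => (2 * (m - 1)) * AV 0 (N k) f 0) μ :=
          (iAV _).const_mul _
        have i4 : Integrable (fun f : MW => (2 * (m - 1)) * AV 0 (N k) f 0 - (m ^ 2 - 1)) μ :=
          i3.sub (integrable_const _)
        rw [e, integral_sub h1 i4, integral_sub i3
          (integrable_const _), integral_const_mul, eAV _ h2]
        simp only [integral_const, probReal_univ, smul_eq_mul, one_mul]
        ring
      linarith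
    have h3 : (m - 1) ^ 2 ≤ 0 := le_of_tendsto_of_tendsto tendsto_const_nhds l2 h
    nlinarith [sq_nonneg (m - 1)]
  refine ⟨hm1, ?_⟩
  subst hm1
  -- the second moment of the difference
  have hX : Integrable (fun f : MW => ‖f 0 ^ 2 - 1‖ ^ 2) μ := by
    have e : (fun f : MW => ‖f 0 ^ 2 - 1‖ ^ 2) = fun f : MW => f 0 ^ 4 - 2 * f 0 ^ 2 + 1 := by
      funext f
      rw [Real.norm_eq_abs, sq_abs]
      ring
    rw [e]
    exact (h4.sub (h4w.const_mul 2)).add (integrable_const _)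
  have hXI : ∫ f : MW, ‖f 0 ^ 2 - 1‖ ^ 2 ∂μ = 2 - 3 / 2 * parallel ν := by
    have e : (fun f : MW => ‖f 0 ^ 2 - 1‖ ^ 2) = fun f : MW => f 0 ^ 4 - 2 * f 0 ^ 2 + 1 := by
      funext f
      rw [Real.norm_eq_abs, sq_abs]
      ring
    have e2 : ∫ f : MW, f 0 ^ 2 ∂μ = 1 := by
      have h := hcov 0 0
      rw [sub_zero, cov0, mul_one] at h
      rw [← h]
      exact integral_congr_ae (Eventually.of_forall fun f => sq (f 0))
    have e4 := Pool.Agent.N141.BRERG4.ERG4 μ hμ hst her h4 1 ν hν hcov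
    have i5 : Integrable (fun f : MW => f 0 ^ 4 - 2 * f 0 ^ 2) μ := h4.sub (h4w.const_mul 2)
    rw [e, integral_add i5 (integrable_const _),
      integral_sub h4 (h4w.const_mul 2), integral_const_mul, e2, e4]
    simp only [integral_const, probReal_univ, smul_eq_mul, one_mul]
    ring
  have hlim1 := sq_lim (P := μ) (a := fun f : MW => f 0 ^ 2 - 1)
    (b := fun k (f : MW) => -(AV 0 (N k) f 0 - 1))
    (((meas_eval 0).pow_const 2).sub_const 1).aestronglyMeasurable
    (fun k => (((AV_meas (N k)).sub_const 1).neg).aestronglyMeasurable) hX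
    (i2.mono fun k hk => hk.congr (Eventually.of_forall fun f => by
      simp only [norm_neg, Real.norm_eq_abs, sq_abs]))
    (l2.congr fun k => integral_congr_ae (Eventually.of_forall fun f => by
      simp only [norm_neg, Real.norm_eq_abs, sq_abs]))
  rw [hXI] at hlim1
  have hQ : ∀ k, 1 ≤ N k → ∀ f : MW, ‖QV (Finsupp.single 0 1 - vA 0 (N k)) 0 1 f 0‖ ^ 2 =
      ‖(f 0 ^ 2 - 1) + -(AV 0 (N k) f 0 - 1)‖ ^ 2 := by
    intro k hk f
    rw [(Pool.Agent.N507.BRGN.GN.1 (N k) hk).2.2 0 1 f 0, QQ_AV, Complex.norm_real]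
    congr 2
    ring
  have hlim2 : Tendsto (fun k => ∫ f : MW, ‖(f 0 ^ 2 - 1) + -(AV 0 (N k) f 0 - 1)‖ ^ 2 ∂μ) atTop
      (𝓝 (1 ^ 2 * (2 * (1 - parallel ν)))) := by
    refine (((ker_lim ν hN).const_mul 2).const_mul _).congr' ?_
    filter_upwards [hlim1.1, hN.eventually_ge_atTop 1] with k h1 h2
    have h3 := Pool.Agent.N344.BRNUL.NUL μ hμ hst her h4 1 ν hν hcov _ (EZ_v (N k) h2)
      (h1.congr (Eventually.of_forall fun f => (hQ k h2 f).symm))
    rw [← h3]
    exact integral_congr_ae (Eventually.of_forall fun f => hQ k h2 f)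
  have h := tendsto_nhds_unique hlim1.2 hlim2
  linarith

end

end Pool.Agent.N232.FMPLW
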