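import Pool.Agent.N661.QB.Stm
import Pool.Agent.Y265.HY.Z

/-!
# Project QB (helper661), SYS (helper232): ladder systems without quantum ergodicity
-/

set_option autoImplicit false
open MeasureTheory Filter Topology Complex
open scoped ContDiff Manifold

namespace Pool.Agent.N232.QBSYS

open Pool.Agent.W745.RW Pool.Agent.TH294.RS Pool.Agent.Y265.HY

noncomputable section

section
variable {B : Set ℂ} {h : ℕ → ℝ} {a : ℂ → ℝ}

/-- the ladder of a sequence bounded in `L²` (the proof of `mkSY`) -/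
theorem mk0 (hB : IsOpen B) (hh : Tendsto h atTop (𝓝 0))
    (ha : ContDiffOn ℝ ∞ a B) (hpa : ∀ z ∈ B, 0 < a z)
    {u : ℕ → ℂ → ℂ} (hu : ∀ n z, (starRingEnd ℂ) (u n z) = u n z) (hb : LB B 2 u)
    (he : ∀ n, ∀ z ∈ B, (h n : ℂ) ^ 2 * ((a z : ℂ) ^ 2 * lap (u n) z) = - u n z) :
    (∀ k, M2C B h (ww a h u k)) ∧
    (∀ k, ∃ e, M2C B h e ∧ ∀ n, ∀ z ∈ B,
      DP a (h n) (ww a h u k n) z = ww a h u (k + 1) n z + (h n : ℂ) * e n z) ∧
    (∀ k, ∃ e, M2C B h e ∧ ∀ n, ∀ z ∈ B,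
      DM a (h n) (ww a h u k n) z = - ww a h u (k - 1) n z + (h n : ℂ) * e n z) ∧
    ∀ k n, ∀ z ∈ B, (starRingEnd ℂ) (ww a h u k n z) = (-1) ^ k.natAbs * ww a h u (-k) n z := by
  have ha2 : ContDiffOn ℝ ∞ (fun z => ((a z : ℂ) ^ 2)⁻¹) B := by
    refine ContDiffOn.inv ((cxa ha).pow 2) fun z hz => ?_
    have := (hpa z hz).ne'
    exact pow_ne_zero 2 (by exact_mod_cast this)
  have H : M2C B h u := fun k => M2.sol hB hh hb ha2 (fun n z hz => by
    have h1 := he n z hz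
    have h2 : (a z : ℂ) ^ 2 ≠ 0 := pow_ne_zero 2 (by exact_mod_cast (hpa z hz).ne')
    have h3 : hL h u n z = ((a z : ℂ) ^ 2)⁻¹ * ((h n : ℂ) ^ 2 * ((a z : ℂ) ^ 2 * lap (u n) z)) := by
      have h4 : ((a z : ℂ) ^ 2)⁻¹ * (a z : ℂ) ^ 2 = 1 := inv_mul_cancel₀ h2
      simp only [hL]
      linear_combination (-((h n : ℂ) ^ 2 * lap (u n) z)) * h4
    rw [h3, h1]; ring) k
  have hzero : M2C B h (fun (_ : ℕ) (_ : ℂ) => (0 : ℂ)) := M2C.zero hB
  have cjw : ∀ (k : ℕ) (c : ℂ), M2C B h (fun n z => c * (starRingEnd ℂ) (TH294.RS.wn a h u k n z)) :=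
    fun k c => ((H.wn hB hh ha k).conj hB).cmul hB hh c
  have bd : ∀ k : ℤ, M2C B h (ww a h u k) := by
    intro k
    rcases Int.eq_nat_or_neg k with ⟨m, rfl | rfl⟩
    · exact (H.wn hB hh ha m)
    · refine M2C.congr hB (cjw m ((-1) ^ m)) fun n z _ => ww_neg hu m n z
  refine ⟨bd, ?_, ?_, ?_⟩
  · -- raising
    intro k
    rcases Int.eq_nat_or_neg k with ⟨m, rfl | rfl⟩
    · refine ⟨_, hzero, fun n z hz => ?_⟩
      have e1 : ((m : ℤ) + 1) = ((m + 1 : ℕ) : ℤ) := by push_cast; rfl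
      rw [e1, ww_nat, ww_nat, wn_succ]
      simp
    · cases m with
      | zero =>
        refine ⟨_, hzero, fun n z hz => ?_⟩
        have e1 : (-((0 : ℕ) : ℤ) + 1) = ((1 : ℕ) : ℤ) := by simp
        have e2 : (-((0 : ℕ) : ℤ)) = ((0 : ℕ) : ℤ) := by simp
        rw [e1, e2, ww_nat, ww_nat, wn_succ]
        simp
      | succ m =>
        obtain ⟨E, hE, hE'⟩ := errs2 hB hh ha H he m
        refine ⟨fun n z => (-1) ^ (m + 1) * (starRingEnd ℂ) (E n z),
          ((hE.conj hB).cmul hB hh _), fun n z hz => ?_⟩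
        have e1 : (-((m + 1 : ℕ) : ℤ) + 1) = -(m : ℤ) := by push_cast; ring
        rw [e1, ww_neg hu]
        have e2 : ww a h u (-((m + 1 : ℕ) : ℤ)) n =
            fun z => (-1) ^ (m + 1) * (starRingEnd ℂ) (TH294.RS.wn a h u (m + 1) n z) := by
          funext z; exact ww_neg hu (m + 1) n z
        have d := fda hB ((H.wn hB hh ha (m + 1)).sm n) hz
        rw [e2, DP_cm (h n) (conj_da d), DP_conj (h n) d, hE' n z hz, map_add, map_neg, map_mul,
          conj_ofReal]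
        ring
  · -- lowering
    intro k
    rcases Int.eq_nat_or_neg k with ⟨m, rfl | rfl⟩
    · cases m with
      | zero =>
        refine ⟨_, hzero, fun n z hz => ?_⟩
        have e1 : (((0 : ℕ) : ℤ) - 1) = -((1 : ℕ) : ℤ) := by simp
        rw [e1, ww_neg hu, ww_nat, wn_succ]
        have e2 : TH294.RS.wn a h u 0 n = u n := rfl
        have d := fda hB (H.sm n) hz
        have e3 : u n = fun w => (starRingEnd ℂ) (u n w) := by
          funext w; exact (hu n w).symm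
        have e4 : DM a (h n) (u n) z = (starRingEnd ℂ) (DP a (h n) (u n) z) := by
          conv_lhs => rw [e3]
          exact DM_conj (h n) d
        rw [e2, e4]
        ring
      | succ m =>
        obtain ⟨E, hE, hE'⟩ := errs2 hB hh ha H he m
        refine ⟨E, hE, fun n z hz => ?_⟩
        have e1 : (((m + 1 : ℕ) : ℤ) - 1) = ((m : ℕ) : ℤ) := by push_cast; ring
        rw [e1, ww_nat, ww_nat]
        exact hE' n z hz
    · refine ⟨_, hzero, fun n z hz => ?_⟩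
      have e1 : (-(m : ℤ) - 1) = -((m + 1 : ℕ) : ℤ) := by push_cast; ring
      rw [e1, ww_neg hu, wn_succ]
      have e2 : ww a h u (-(m : ℤ)) n =
          fun z => (-1) ^ m * (starRingEnd ℂ) (TH294.RS.wn a h u m n z) := by
        funext z; exact ww_neg hu m n z
      have d := fda hB ((H.wn hB hh ha m).sm n) hz
      rw [e2, DM_cm (h n) (conj_da d), DM_conj (h n) d, pow_succ]
      ring
  · -- conjugation
    intro k n z hz
    have hs : ∀ m : ℕ, ((-1 : ℂ) ^ m) * (-1) ^ m = 1 := by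
      intro m; rw [← mul_pow]; simp
    rcases Int.eq_nat_or_neg k with ⟨m, rfl | rfl⟩
    · rw [ww_neg hu, ww_nat, Int.natAbs_natCast, ← mul_assoc, hs, one_mul]
    · rw [neg_neg, ww_nat, Int.natAbs_neg, Int.natAbs_natCast, ww_neg hu, map_mul,
        conj_conj, map_pow, map_neg, map_one]
end

open Pool.Agent.N661.BH (HP)
open Pool.Agent.N661.QB
open Pool.Agent.N814.BHM (mass mass_pos)

/-- local `L²` bounds from the mean square -/
lemma lb_of_ms {Ω : Set ℂ} {lam : ℕ → ℝ} {u : ℕ → ℂ → ℝ} (H : HypE Ω lam u) :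
    LB Ω 2 (fun n z => (u n z : ℂ)) := by
  have hu : ∀ n, ContDiffOn ℝ ∞ (u n) Ω := fun n => (H.sm n).mono H.sub
  have hm : 0 < mass Ω := mass_pos H.op (fun z hz => H.sub hz) H.ne H.int
  refine ⟨fun n => cxa (hu n), fun K hK hKΩ => ?_⟩
  obtain ⟨R, hR⟩ := hK.isBounded.exists_norm_le
  refine ⟨R ^ 2 * (2 * mass Ω), ?_⟩
  filter_upwards [H.ms.2.eventually (gt_mem_nhds (one_lt_two))] with n hn
  have h1 : ∫ z in Ω, u n z ^ 2 / z.im ^ 2 ≤ 2 * mass Ω := by
    have h2 : (∫ z in Ω, u n z ^ 2 / z.im ^ 2) / mass Ω < 2 := hn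
    exact ((div_lt_iff₀ hm).1 h2).le
  have hi := H.ms.1 n
  have hc : ContinuousOn (fun z => ‖(u n z : ℂ)‖ ^ 2) K :=
    ((cxa (hu n)).continuousOn.norm.pow 2).mono hKΩ
  calc ∫ z in K, ‖(u n z : ℂ)‖ ^ 2 ≤ ∫ z in K, R ^ 2 * (u n z ^ 2 / z.im ^ 2) := by
        refine setIntegral_mono_on (hc.integrableOn_compact hK)
          ((hi.mono_set hKΩ).const_mul _) hK.measurableSet fun z hz => ?_
        have hz0 : 0 < z.im := H.sub (hKΩ hz)
        have hz1 : z.im ≤ R := (le_abs_self _).trans ((Complex.abs_im_le_norm z).trans (hR z hz))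
        rw [Complex.norm_real, Real.norm_eq_abs, sq_abs, ← mul_div_assoc,
          le_div_iff₀ (by positivity), mul_comm]
        exact mul_le_mul_of_nonneg_right (pow_le_pow_left₀ hz0.le hz1 2) (sq_nonneg _)
    _ = R ^ 2 * ∫ z in K, u n z ^ 2 / z.im ^ 2 := integral_const_mul _ _
    _ ≤ R ^ 2 * ∫ z in Ω, u n z ^ 2 / z.im ^ 2 := by
        refine mul_le_mul_of_nonneg_left (setIntegral_mono_set hi
          (Eventually.of_forall fun z => ?_) (Eventually.of_forall hKΩ)) (sq_nonneg _)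
        show 0 ≤ u n z ^ 2 / z.im ^ 2
        positivity
    _ ≤ R ^ 2 * (2 * mass Ω) := mul_le_mul_of_nonneg_left h1 (sq_nonneg _)

/-- QB/SYS -/
theorem SYS : S_SYS := by
  intro Ω lam u H
  have hu : ∀ n, ContDiffOn ℝ ∞ (u n) Ω := fun n => (H.sm n).mono H.sub
  have hU : ∀ z ∈ Ω, 0 < z.im := fun z hz => H.sub hz
  have hp : ∀ n, 0 < 1 / √(lam n) := fun n => div_pos one_pos (Real.sqrt_pos.2 (H.pos n))
  have hl : Tendsto (fun n => 1 / √(lam n)) atTop (𝓝 0) := by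
    have : Tendsto (fun n => √(lam n)) atTop atTop := Real.tendsto_sqrt_atTop.comp H.lim
    exact (this.inv_tendsto_atTop).congr (fun n => by simp [one_div])
  have ha : ContDiffOn ℝ ∞ Complex.im Ω := imCLM.contDiff.contDiffOn
  have pde : ∀ n, ∀ z ∈ Ω, ((1 / √(lam n) : ℝ) : ℂ) ^ 2 * ((z.im : ℂ) ^ 2 *
      lap (fun z => (u n z : ℂ)) z) = - (u n z : ℂ) := by
    intro n z hz
    rw [lap_re H.op (hu n) hz]
    have h1 := H.eq n z (H.sub hz)
    have h2 : (1 / √(lam n)) ^ 2 = 1 / lam n := by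
      rw [div_pow, Real.sq_sqrt (H.pos n).le, one_pow]
    have h3 : (1 / √(lam n)) ^ 2 * (z.im ^ 2 * lap (u n) z) = - u n z := by
      rw [h2]
      have h4 := (H.pos n).ne'
      have h5 : z.im ^ 2 * lap (u n) z = - (lam n * u n z) := by linarith
      rw [h5]; field_simp
    have h6 := congrArg (fun x : ℝ => (x : ℂ)) h3
    push_cast at h6 ⊢
    exact h6
  obtain ⟨h1, h2, h3, h4⟩ := mk0 (a := Complex.im) H.op hl ha hU
    (u := fun n z => (u n z : ℂ)) (fun n z => conj_ofReal _) (lb_of_ms H) pde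
  exact ⟨H.op, hp, hl, hU, h1, h2, h3, h4⟩

end

end Pool.Agent.N232.QBSYS
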