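import Pool.Agent.N906.SZ.Stm

/-!
# Project SZ (helper906), part LO: the lower bound

By helper232; the comparison of the main terms is adapted from `Pool.Agent.N427.RS_LO` (helper427).
-/

set_option autoImplicit false

namespace Pool.Agent.N232.SZ

open Finset Filter Topology
open Pool.Agent.N906.SZ

/-! ### divisibility -/

theorem fac_Nc (a b : ℤ) (hD : Dd a b ≠ 0) {p : ℕ} (hp : p.Prime) (hpD : (p : ℤ) ∣ Dd a b) :
    (Nc a b).factorization p = fe p a := by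
  classical
  set S := (Dd a b).natAbs.primeFactors.filter (fun p => 5 ≤ p) with hS
  have hpr : ∀ q ∈ S, q.Prime := fun q hq => Nat.prime_of_mem_primeFactors (mem_filter.1 hq).1
  have h1 : Nc a b = ∏ q ∈ S, q ^ fe q a := by
    unfold Nc
    refine Finset.prod_congr rfl fun q hq => ?_
    have h5 : ¬ q < 5 := not_lt.2 (mem_filter.1 hq).2
    unfold fe
    rw [if_neg h5]
    split_ifs
    · rfl
    · rw [pow_one]
  rw [h1, Nat.factorization_prod (fun q hq => pow_ne_zero _ (hpr q hq).ne_zero),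
    Finsupp.finsetSum_apply]
  have h2 : ∀ q ∈ S, (q ^ fe q a).factorization p = if q = p then fe p a else 0 := by
    intro q hq
    rw [Nat.factorization_pow, Finsupp.smul_apply, (hpr q hq).factorization, smul_eq_mul]
    by_cases h : q = p
    · subst h; simp
    · rw [Finsupp.single_eq_of_ne (Ne.symm h), if_neg h, mul_zero]
  rw [Finset.sum_congr rfl h2, Finset.sum_ite_eq' S p]
  split_ifs with h
  · rfl
  · have h3 : ¬ 5 ≤ p := by
      intro h5
      apply h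
      rw [hS, mem_filter]
      refine ⟨?_, h5⟩
      rw [Nat.mem_primeFactors]
      exact ⟨hp, by rwa [← Int.natCast_dvd], by simpa using hD⟩
    unfold fe
    rw [if_pos (by omega)]

theorem dvd_of_Cn {a b : ℤ} (hD : Dd a b ≠ 0) {m n : ℕ} (hm : m ≠ 0) (hn : n ≠ 0)
    (hC : Cn m a b) (h : (Dd a b).natAbs = n * Nc a b) : m ∣ n := by
  have hN : Nc a b ≠ 0 := by
    intro h0
    rw [h0, mul_zero] at h
    exact hD (Int.natAbs_eq_zero.1 h)
  rw [← Nat.factorization_le_iff_dvd hm hn]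
  intro p
  by_cases hp : p ∈ m.primeFactors
  · have hpp := Nat.prime_of_mem_primeFactors hp
    have h1 := hC p hp
    have h2 : p ^ (m.factorization p + fe p a) ∣ (Dd a b).natAbs := by
      rw [← Int.natCast_dvd]
      exact_mod_cast h1
    have h3 : (p : ℤ) ∣ Dd a b := by
      refine dvd_trans (dvd_pow_self _ ?_) h1
      have : m.factorization p ≠ 0 :=
        (hpp.factorization_pos_of_dvd hm (Nat.dvd_of_mem_primeFactors hp)).ne'
      omega
    rw [hpp.pow_dvd_iff_le_factorization (by simpa using hD), h, Nat.factorization_mul hn hN,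
      Finsupp.add_apply, fac_Nc a b hD hpp h3] at h2
    omega
  · have : m.factorization p = 0 := by
      rwa [← Finsupp.notMem_support_iff, Nat.support_factorization]
    omega

/-- the size of the discriminant -/
theorem Dd_le {X : ℝ} {a b : ℤ} (ha : |(a : ℝ)| ≤ X ^ 2) (hb : |(b : ℝ)| ≤ X ^ 3) :
    |((Dd a b : ℤ) : ℝ)| ≤ 31 * X ^ 6 := by
  unfold Dd
  push_cast
  have h1 : |(a : ℝ)| ^ 3 ≤ (X ^ 2) ^ 3 := pow_le_pow_left₀ (abs_nonneg _) ha 3
  have h2 : |(b : ℝ)| ^ 2 ≤ (X ^ 3) ^ 2 := pow_le_pow_left₀ (abs_nonneg _) hb 2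
  have h3 : |4 * (a : ℝ) ^ 3| = 4 * |(a : ℝ)| ^ 3 := by rw [abs_mul, abs_pow]; norm_num
  have h4 : |27 * (b : ℝ) ^ 2| = 27 * |(b : ℝ)| ^ 2 := by rw [abs_mul, abs_pow]; norm_num
  have h5 := abs_sub (4 * (a : ℝ) ^ 3) (27 * (b : ℝ) ^ 2)
  have e1 : (X ^ 2) ^ 3 = X ^ 6 := by ring
  have e2 : (X ^ 3) ^ 2 = X ^ 6 := by ring
  rw [e1] at h1
  rw [e2] at h2
  rw [h3, h4] at h5
  linarith

/-! ### the comparison of the main terms -/

theorem cmp {κ ε ε' : ℝ} (a C₀ : ℝ) (hκ0 : 0 < κ) (hκ1 : κ < 1) (hε0 : 0 < ε) (hε1 : ε < 1)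
    (hε' : ε' ≤ ε / 4) (hε'0 : 0 < ε') : ∀ᶠ X : ℝ in atTop,
    C₀ + (1 - ε) * √(16 * κ * X / Real.log X) ≤
      (1 - ε') * √(16 * (κ * X + a) / Real.log (κ * X + a)) := by
  set M := max (2 * C₀ / ε) 1 with hM
  have hM1 : 1 ≤ M := le_max_right _ _
  have hM0 : 2 * C₀ / ε ≤ M := le_max_left _ _
  have hlog := Real.isLittleO_log_id_atTop.def (c := 16 * κ / M ^ 2) (by positivity)
  have t1 : Tendsto (fun X : ℝ => κ * X) atTop atTop := tendsto_id.const_mul_atTop hκ0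
  have e1 := t1.eventually_ge_atTop (2 - a)
  have e2 := t1.eventually_ge_atTop (4 * (-a) / ε)
  have e3 := (tendsto_id.const_mul_atTop (by linarith : (0 : ℝ) < 1 - κ)).eventually_ge_atTop a
  filter_upwards [hlog, e1, e2, e3, eventually_gt_atTop (1 : ℝ)] with X h1 h2 h3 h4 h5
  have hX0 : 0 < X := by linarith
  have hlX : 0 < Real.log X := Real.log_pos h5
  have hZ2 : 2 ≤ κ * X + a := by linarith
  have hZX : κ * X + a ≤ X := by
    have : (1 - κ) * X ≥ a := h4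
    linarith
  have hlZ : 0 < Real.log (κ * X + a) := Real.log_pos (by linarith)
  have hllZ : Real.log (κ * X + a) ≤ Real.log X := Real.log_le_log (by linarith) hZX
  have hlow : (1 - ε / 4) * (κ * X) ≤ κ * X + a := by
    rw [div_le_iff₀ hε0] at h3
    linarith
  set Y := √(16 * κ * X / Real.log X) with hY
  have hY0 : 0 ≤ Y := Real.sqrt_nonneg _
  have hYM : M ≤ Y := by
    apply Real.le_sqrt_of_sq_le
    rw [le_div_iff₀ hlX]
    rw [Real.norm_of_nonneg hlX.le, id, Real.norm_of_nonneg hX0.le] at h1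
    have hM2 : 0 < M ^ 2 := by positivity
    calc M ^ 2 * Real.log X ≤ M ^ 2 * (16 * κ / M ^ 2 * X) := by gcongr
      _ = 16 * κ * X := by field_simp
  have hmain : (1 - ε / 4) * Y ≤ √(16 * (κ * X + a) / Real.log (κ * X + a)) := by
    apply Real.le_sqrt_of_sq_le
    rw [mul_pow, hY, Real.sq_sqrt (by positivity)]
    have h6 : (1 - ε / 4) ^ 2 ≤ 1 - ε / 4 := by nlinarith
    calc (1 - ε / 4) ^ 2 * (16 * κ * X / Real.log X) ≤ (1 - ε / 4) * (16 * κ * X / Real.log X) := by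
          gcongr
      _ = 16 * ((1 - ε / 4) * (κ * X)) / Real.log X := by ring
      _ ≤ 16 * (κ * X + a) / Real.log X := by gcongr
      _ ≤ 16 * (κ * X + a) / Real.log (κ * X + a) := by
          gcongr
  have hC : C₀ ≤ ε / 2 * Y := by
    rw [div_le_iff₀ hε0] at hM0
    nlinarith
  have h7 : (1 - ε') * ((1 - ε / 4) * Y) ≤ (1 - ε') *
      √(16 * (κ * X + a) / Real.log (κ * X + a)) := by
    apply mul_le_mul_of_nonneg_left hmain
    linarith
  have h8 : (1 - ε / 2) * Y ≤ (1 - ε') * ((1 - ε / 4) * Y) := by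
    rw [← mul_assoc]
    apply mul_le_mul_of_nonneg_right _ hY0
    nlinarith
  linarith

/-! ### the pairs `(q, r)` -/

theorem rd_eq {n : ℕ} (h : ∀ p ∈ n.primeFactors, (5 : ℝ) < (p : ℝ)) :
    rd n = ∏ p ∈ n.primeFactors, p := by
  unfold rd
  rw [Finset.filter_true_of_mem]
  intro p hp
  have := h p hp
  have h5 : 5 < p := by exact_mod_cast this
  omega

theorem rd_pos (n : ℕ) : 1 ≤ rd n := by
  unfold rd
  exact Finset.prod_pos fun p hp => (Nat.prime_of_mem_primeFactors (mem_filter.1 hp).1).pos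

theorem rd_mono {m n : ℕ} (hn : n ≠ 0) (h : m ∣ n) : rd m ≤ rd n := by
  unfold rd
  apply Finset.prod_le_prod_of_subset_of_one_le'
  · exact Finset.filter_subset_filter _ (Nat.primeFactors_mono h hn)
  · intro p hp _
    exact (Nat.prime_of_mem_primeFactors (mem_filter.1 hp).1).one_lt.le

/-- a pair is determined by its local exponents -/
theorem pair_unique {z P : ℝ} {a D : ℤ} {q r q' r' : ℕ} (hq : q ≠ 0) (hr : r ≠ 0) (hq' : q' ≠ 0)
    (hr' : r' ≠ 0)
    (h1 : ∀ p ∈ (q * r).primeFactors, z < (p : ℝ) ∧ (p : ℝ) ≤ P)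
    (h2 : ∀ p ∈ (q' * r').primeFactors, z < (p : ℝ) ∧ (p : ℝ) ≤ P)
    (h : ∀ p : ℕ, p.Prime → z < (p : ℝ) → (p : ℝ) ≤ P →
        (((p : ℤ) ∣ a → D.natAbs.factorization p - 2 = r.factorization p ∧
          q.factorization p = 0) ∧
        (¬ (p : ℤ) ∣ a → D.natAbs.factorization p - 1 = q.factorization p ∧
          r.factorization p = 0)))
    (h' : ∀ p : ℕ, p.Prime → z < (p : ℝ) → (p : ℝ) ≤ P →
        (((p : ℤ) ∣ a → D.natAbs.factorization p - 2 = r'.factorization p ∧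
          q'.factorization p = 0) ∧
        (¬ (p : ℤ) ∣ a → D.natAbs.factorization p - 1 = q'.factorization p ∧
          r'.factorization p = 0))) : q = q' ∧ r = r' := by
  have key : ∀ p : ℕ, q.factorization p = q'.factorization p ∧
      r.factorization p = r'.factorization p := by
    intro p
    by_cases hp : p.Prime ∧ z < (p : ℝ) ∧ (p : ℝ) ≤ P
    · obtain ⟨hp0, hp1, hp2⟩ := hp
      have g := h p hp0 hp1 hp2
      have g' := h' p hp0 hp1 hp2
      by_cases ha : (p : ℤ) ∣ a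
      · have e1 := g.1 ha
        have e2 := g'.1 ha
        omega
      · have e1 := g.2 ha
        have e2 := g'.2 ha
        omega
    · have n1 : p ∉ (q * r).primeFactors := fun hm =>
        hp ⟨Nat.prime_of_mem_primeFactors hm, h1 p hm⟩
      have n2 : p ∉ (q' * r').primeFactors := fun hm =>
        hp ⟨Nat.prime_of_mem_primeFactors hm, h2 p hm⟩
      have m1 : (q * r).factorization p = 0 := by
        rwa [← Finsupp.notMem_support_iff, Nat.support_factorization]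
      have m2 : (q' * r').factorization p = 0 := by
        rwa [← Finsupp.notMem_support_iff, Nat.support_factorization]
      rw [Nat.factorization_mul hq hr, Finsupp.add_apply] at m1
      rw [Nat.factorization_mul hq' hr', Finsupp.add_apply] at m2
      omega
  exact ⟨Nat.eq_of_factorization_eq hq hq' fun p => (key p).1,
    Nat.eq_of_factorization_eq hr hr' fun p => (key p).2⟩

/-- The lower bound. -/
theorem lo (h1 : S_GAIN) (h2 : S_WINQ) (h3 : S_LOWQ) : S_LO := by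
  classical
  intro lam A ε hl0 hl1 hA hε0 hε1
  obtain ⟨c₁, c, C₀, hc₁, hc, hC₀, hlow⟩ := h3
  obtain ⟨κ, hκ⟩ : ∃ κ : ℝ, κ = 6 * lam := ⟨_, rfl⟩
  have hκ0 : 0 < κ := by rw [hκ]; linarith
  have hκ1 : κ < 1 := by rw [hκ]; linarith
  obtain ⟨ε', hε'0, hε'1, hε'2⟩ : ∃ ε' : ℝ, 0 < ε' ∧ ε' ≤ ε / 4 ∧ ε' ≤ 1 / 20 :=
    ⟨min (ε / 4) (1 / 20), lt_min (by linarith) (by norm_num), min_le_left _ _, min_le_right _ _⟩
  obtain ⟨Z₀, hZ₀, hwin⟩ := h2 ε' c₁ hε'0 (by linarith) hc₁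
  obtain ⟨a, ha⟩ : ∃ a : ℝ, a = Real.log A + lam * Real.log 31 := ⟨_, rfl⟩
  have t1 : Tendsto (fun L : ℝ => κ * L) atTop atTop := tendsto_id.const_mul_atTop hκ0
  have e1 := t1.eventually_ge_atTop (Z₀ - a)
  have e2 := t1.eventually_ge_atTop (C₀ ^ 2 - a)
  have t2 : Tendsto (fun L : ℝ => (1 - κ) * L) atTop atTop :=
    tendsto_id.const_mul_atTop (by linarith : (0 : ℝ) < 1 - κ)
  have e3 := t2.eventually_ge_atTop a
  have e4 := eventually_ge_atTop (2 * Real.log C₀)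
  have e5 := eventually_ge_atTop (10 * Real.log 25)
  have e6 := cmp a (a - Real.log (c / 5)) hκ0 hκ1 hε0 hε1 hε'1 hε'0
  have hev := e1.and (e2.and (e3.and (e4.and (e5.and (e6.and (eventually_ge_atTop (1 : ℝ)))))))
  obtain ⟨L₀, hL₀⟩ := Filter.eventually_atTop.1 hev
  refine ⟨max (Real.exp L₀) 4, lt_max_of_lt_right (by norm_num), fun X hX => ?_⟩
  have hX4 : 4 ≤ X := (le_max_right _ _).trans hX
  have hX0 : 0 < X := by linarith
  obtain ⟨L, hL⟩ : ∃ L : ℝ, L = Real.log X := ⟨_, rfl⟩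
  have hXL : X = Real.exp L := by rw [hL, Real.exp_log hX0]
  have hLL : L₀ ≤ L := by
    rw [hL, Real.le_log_iff_exp_le hX0]
    exact (le_max_left _ _).trans hX
  obtain ⟨f1, f2, f3, f4, f5, f6, f7⟩ := hL₀ L hLL
  obtain ⟨Z, hZ⟩ : ∃ Z : ℝ, Z = κ * L + a := ⟨_, rfl⟩
  rw [← hZ] at f6
  have hZZ : Z₀ ≤ Z := by linarith
  have hZ1 : 1 < Z := by linarith
  have hZX : Z ≤ L := by
    have : (1 - κ) * L ≥ a := f3
    rw [hZ]; linarith
  have hCZ : C₀ ≤ √Z := by
    apply Real.le_sqrt_of_sq_le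
    linarith
  obtain ⟨F, hF, hFs⟩ := hwin Z hZZ
  obtain ⟨T, hT⟩ : ∃ T : ℝ, T = Real.exp Z := ⟨_, rfl⟩
  have hTA : A * (31 * X ^ 6) ^ lam = T := by
    have g1 : (31 * X ^ 6 : ℝ) ^ lam = Real.exp (lam * (Real.log 31 + 6 * L)) := by
      rw [Real.rpow_def_of_pos (by positivity), Real.log_mul (by norm_num) (by positivity),
        Real.log_pow, hL]
      congr 1
      push_cast
      ring
    rw [g1, hT, hZ, ha, hκ]
    nth_rw 1 [← Real.exp_log (lt_of_lt_of_le one_pos hA)]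
    rw [← Real.exp_add]
    congr 1
    ring
  have hT0 : 0 < T := by rw [hT]; exact Real.exp_pos _
  obtain ⟨P, hP⟩ : ∃ P : ℝ, P = Real.exp (ε' * Z) := ⟨_, rfl⟩
  have hP0 : 0 < P := by rw [hP]; exact Real.exp_pos _
  -- facts on the pairs
  have hfac : ∀ x ∈ F, (1 ≤ x.1 ∧ 1 ≤ x.2) ∧ (rd (x.1 * x.2) : ℝ) ≤ P ∧
      rd (x.1 * x.2) = (∏ p ∈ (x.1 * x.2).primeFactors, p) ∧
      (∀ p ∈ (x.1 * x.2).primeFactors, √Z < (p : ℝ) ∧ (p : ℝ) ≤ P) ∧
      ((x.1 * x.2 : ℕ) : ℝ) ≤ T := by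
    intro x hx
    obtain ⟨g1, g2, g3, g4, g5, g6, g7, g8⟩ := hF x hx
    have hne : x.1 * x.2 ≠ 0 := by positivity
    have hrd : rd (x.1 * x.2) = ∏ p ∈ (x.1 * x.2).primeFactors, p :=
      rd_eq fun p hp => by linarith [g4 p hp]
    have hprod : 0 < ∏ p ∈ (x.1 * x.2).primeFactors, p :=
      Finset.prod_pos fun p hp => (Nat.prime_of_mem_primeFactors hp).pos
    have hrP : (rd (x.1 * x.2) : ℝ) ≤ P := by
      rw [hrd, hP, ← Real.log_le_iff_le_exp (by exact_mod_cast hprod)]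
      exact g7
    refine ⟨⟨g1, g2⟩, hrP, hrd, fun p hp => ⟨g4 p hp, ?_⟩, ?_⟩
    · refine le_trans ?_ hrP
      rw [hrd]
      exact_mod_cast Nat.le_of_dvd hprod (Finset.dvd_prod_of_mem _ hp)
    · rw [hT, ← Real.log_le_iff_le_exp (by exact_mod_cast Nat.pos_of_ne_zero hne)]
      exact g6
  -- the points for a pair
  have hG : ∀ x : ℕ × ℕ, ∃ G : Finset (ℤ × ℤ), x ∈ F →
      (∀ y ∈ G, Mn y.1 y.2 ∧ |(y.1 : ℝ)| ≤ X ^ 2 ∧ |(y.2 : ℝ)| ≤ X ^ 3 ∧
        A * (Nc y.1 y.2 : ℝ) * |((Dd y.1 y.2 : ℤ) : ℝ)| ^ lam ≤ |((Dd y.1 y.2 : ℤ) : ℝ)|) ∧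
      (∀ y ∈ G, ∀ p : ℕ, p.Prime → √Z < (p : ℝ) → (p : ℝ) ≤ P →
        (((p : ℤ) ∣ y.1 → (Dd y.1 y.2).natAbs.factorization p - 2 = x.2.factorization p ∧
          x.1.factorization p = 0) ∧
        (¬ (p : ℤ) ∣ y.1 → (Dd y.1 y.2).natAbs.factorization p - 1 = x.1.factorization p ∧
          x.2.factorization p = 0))) ∧
      c * X ^ 5 / (5 * T) * (1 / ((∏ p ∈ (x.1 * x.2).primeFactors, p : ℕ) : ℝ)) ≤ G.card := by
    intro x
    by_cases hx : x ∈ F
    swap
    · exact ⟨∅, fun h => absurd h hx⟩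
    obtain ⟨g1, g2, g3, g4, g5, g6, g7, g8⟩ := hF x hx
    obtain ⟨-, k1, k2, k3, k4⟩ := hfac x hx
    obtain ⟨q, r⟩ := x
    simp only at g1 g2 g3 g4 g5 g6 g7 g8 k1 k2 k3 k4 ⊢
    have hqr0 : q * r ≠ 0 := by positivity
    have hqrpos : (0 : ℝ) < ((q * r : ℕ) : ℝ) := by exact_mod_cast Nat.pos_of_ne_zero hqr0
    obtain ⟨j, hj1, hj2⟩ : ∃ j : ℕ, T ≤ 5 ^ j * ((q * r : ℕ) : ℝ) ∧
        5 ^ j * ((q * r : ℕ) : ℝ) ≤ 5 * T := by
      obtain ⟨n, hn1, hn2⟩ := exists_nat_pow_near (x := T / ((q * r : ℕ) : ℝ)) (y := 5)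
        (by rw [le_div_iff₀ hqrpos]; linarith) (by norm_num)
      rw [le_div_iff₀ hqrpos] at hn1
      rw [div_lt_iff₀ hqrpos] at hn2
      exact ⟨n + 1, hn2.le, by rw [pow_succ]; linarith⟩
    have hrdr : (rd r : ℝ) ≤ P := by
      have := rd_mono hqr0 (Dvd.intro_left q rfl : r ∣ q * r)
      exact le_trans (by exact_mod_cast this) k1
    have hrdq : (rd q : ℝ) ≤ P := by
      have := rd_mono hqr0 (Dvd.intro r rfl : q ∣ q * r)
      exact le_trans (by exact_mod_cast this) k1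
    have hrdr1 : (1 : ℝ) ≤ rd r := by exact_mod_cast rd_pos r
    have hrdq1 : (1 : ℝ) ≤ rd q := by exact_mod_cast rd_pos q
    have hXr : Real.exp (L - ε' * Z) ≤ X / rd r := by
      rw [le_div_iff₀ (by linarith), Real.exp_sub, ← hXL, ← hP]
      rw [div_mul_eq_mul_div, div_le_iff₀ hP0]
      gcongr
    have hm : (5 : ℝ) ^ (j + 1) * q * rd q * (r / (rd r : ℝ) ^ 4) ≤
        Real.exp (Real.log 25 + Z + ε' * Z) := by
      have m1 : (r : ℝ) / (rd r : ℝ) ^ 4 ≤ r := by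
        apply div_le_self (by positivity)
        exact one_le_pow₀ hrdr1
      calc (5 : ℝ) ^ (j + 1) * q * rd q * (r / (rd r : ℝ) ^ 4)
          ≤ (5 : ℝ) ^ (j + 1) * q * P * r := by gcongr
        _ = 5 * (5 ^ j * ((q * r : ℕ) : ℝ)) * P := by push_cast; ring
        _ ≤ 5 * (5 * T) * P := by gcongr
        _ = 25 * T * P := by ring
        _ = Real.exp (Real.log 25 + Z + ε' * Z) := by
            rw [Real.exp_add, Real.exp_add, Real.exp_log (by norm_num), hT, hP]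
    have hεZ : ε' * Z ≤ L / 20 := by
      calc ε' * Z ≤ (1 / 20) * L := by gcongr
        _ = L / 20 := by ring
    obtain ⟨G, hG1, hG2⟩ := hlow X (√Z) P j q r g1 g2 g3 hCZ k3 g5 g8
      (by
        refine le_trans ?_ hXr
        rw [← Real.log_le_iff_le_exp (by linarith)]
        linarith)
      (by
        refine hm.trans ?_
        refine le_trans ?_ (Real.rpow_le_rpow (Real.exp_pos _).le hXr (by norm_num))
        rw [← Real.exp_mul, Real.exp_le_exp]
        linarith)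
      (by
        have m2 : (5 : ℝ) ^ (j + 1) * q * rd q * (r / (rd r : ℝ) ^ 4) * P ^ 2 ≤
            Real.exp (Real.log 25 + Z + ε' * Z) * P ^ 2 := by gcongr
        refine m2.trans ?_
        refine le_trans ?_ (pow_le_pow_left₀ (Real.exp_pos _).le hXr 2)
        rw [hP, ← Real.exp_nat_mul, ← Real.exp_nat_mul, ← Real.exp_add, Real.exp_le_exp]
        push_cast
        linarith)
    refine ⟨G, fun _ => ⟨fun y hy => ?_, fun y hy => (hG1 y hy).2.2.2.2, ?_⟩⟩
    · obtain ⟨y1, y2, y3, y4, -⟩ := hG1 y hy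
      refine ⟨y1, y2, y3, ?_⟩
      obtain ⟨n, hn1, -, hn2⟩ := h1 y.1 y.2 y1.1
      have hdvd : 5 ^ j * q * r ∣ n := dvd_of_Cn y1.1 (by positivity) (by omega) y4 hn2
      have hle : ((5 ^ j * q * r : ℕ) : ℝ) ≤ n := by
        exact_mod_cast Nat.le_of_dvd (by omega) hdvd
      have hTn : T ≤ n := by
        refine hj1.trans (le_trans (le_of_eq ?_) hle)
        push_cast; ring
      have hD : |((Dd y.1 y.2 : ℤ) : ℝ)| = n * Nc y.1 y.2 := by
        rw [← Int.cast_abs, ← Nat.cast_natAbs, hn2]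
        push_cast; rfl
      have hD2 := Dd_le y2 y3
      have hD3 : |((Dd y.1 y.2 : ℤ) : ℝ)| ^ lam ≤ (31 * X ^ 6) ^ lam :=
        Real.rpow_le_rpow (abs_nonneg _) hD2 hl0.le
      calc A * (Nc y.1 y.2 : ℝ) * |((Dd y.1 y.2 : ℤ) : ℝ)| ^ lam
          ≤ A * (Nc y.1 y.2 : ℝ) * (31 * X ^ 6) ^ lam := by gcongr
        _ = T * Nc y.1 y.2 := by rw [← hTA]; ring
        _ ≤ n * Nc y.1 y.2 := by gcongr
        _ = |((Dd y.1 y.2 : ℤ) : ℝ)| := hD.symm
    · refine le_trans ?_ hG2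
      have hrd1 : (1 : ℝ) ≤ rd (q * r) := by exact_mod_cast rd_pos (q * r)
      rw [← k2, div_mul_div_comm, mul_one]
      apply div_le_div_of_nonneg_left (by positivity) (by positivity)
      calc (5 : ℝ) ^ j * q * r * rd (q * r) = 5 ^ j * ((q * r : ℕ) : ℝ) * rd (q * r) := by
            push_cast; ring
        _ ≤ 5 * T * rd (q * r) := by gcongr
  choose G hG using hG
  refine ⟨F.biUnion G, ?_, ?_⟩
  · intro y hy
    obtain ⟨x, hx, hyx⟩ := Finset.mem_biUnion.1 hy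
    exact (hG x hx).1 y hyx
  · have hdisj : ∀ x ∈ F, ∀ x' ∈ F, x ≠ x' → Disjoint (G x) (G x') := by
      intro x hx x' hx' hne
      rw [Finset.disjoint_left]
      intro y hy hy'
      apply hne
      obtain ⟨⟨a1, a2⟩, -, -, a3, -⟩ := hfac x hx
      obtain ⟨⟨b1, b2⟩, -, -, b3, -⟩ := hfac x' hx'
      have := pair_unique (by omega) (by omega) (by omega) (by omega) a3 b3
        ((hG x hx).2.1 y hy) ((hG x' hx').2.1 y hy')
      exact Prod.ext this.1 this.2
    have hcard : ((F.biUnion G).card : ℝ) = ∑ x ∈ F, ((G x).card : ℝ) := by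
      rw [Finset.card_biUnion hdisj]
      push_cast
      rfl
    rw [hcard]
    have g1 : c * X ^ 5 / (5 * T) * ∑ x ∈ F, (1 / ((∏ p ∈ (x.1 * x.2).primeFactors, p : ℕ) : ℝ)) ≤
        ∑ x ∈ F, ((G x).card : ℝ) := by
      rw [Finset.mul_sum]
      exact Finset.sum_le_sum fun x hx => (hG x hx).2.2
    refine le_trans ?_ g1
    have g2 : c * X ^ 5 / (5 * T) * Real.exp ((1 - ε') * √(16 * Z / Real.log Z)) ≤
        c * X ^ 5 / (5 * T) * ∑ x ∈ F, (1 / ((∏ p ∈ (x.1 * x.2).primeFactors, p : ℕ) : ℝ)) := by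
      gcongr
    refine le_trans ?_ g2
    have g3 : c * X ^ 5 / (5 * T) = Real.exp (Real.log (c / 5) + 5 * L - Z) := by
      have e5L : Real.exp (5 * L) = X ^ 5 := by
        rw [hXL, ← Real.exp_nat_mul]; norm_num
      rw [Real.exp_sub, Real.exp_add, Real.exp_log (by positivity), e5L, ← hT]
      field_simp
    rw [g3, ← Real.exp_add, Real.exp_le_exp, ← hL]
    have g4 : 96 * lam * L = 16 * κ * L := by rw [hκ]; ring
    rw [g4]
    have g5 : Z = 6 * lam * L + a := by rw [hZ, hκ]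
    linarith

end Pool.Agent.N232.SZ
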