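import Pool.Agent.N657.ZS.Stm

set_option autoImplicit false

namespace Pool.Agent.N232.ZS

open Pool.Agent.TH964.CF Pool.Agent.N623.NA Pool.Agent.N657.ZS

variable {q : ℕ}

/-- the flux is closed -/
theorem bianchi (θ : Lk ℤ → ZMod q) (z : Fin 4 → ℤ) (i j k : Fin 4) :
    fl θ (z + ev ℤ i) j k - fl θ z j k - (fl θ (z + ev ℤ j) i k - fl θ z i k) +
      (fl θ (z + ev ℤ k) i j - fl θ z i j) = 0 := by
  unfold fl
  rw [add_right_comm z (ev ℤ j) (ev ℤ i), add_right_comm z (ev ℤ k) (ev ℤ i),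
    add_right_comm z (ev ℤ k) (ev ℤ j)]
  ring

theorem ev_apply (k i : Fin 4) : ev ℤ k i = if i = k then 1 else 0 := by
  unfold ev
  by_cases h : i = k
  · subst h; simp
  · simp [h]

theorem tele (g : ℤ → ZMod q) (n : ℕ) :
    ∑ t ∈ Finset.Icc (-(n : ℤ)) (-1), (g (t + 1) - g t) = g 0 - g (-(n : ℤ)) := by
  induction n with
  | zero => simp
  | succ n ih =>
    have h : Finset.Icc (-((n + 1 : ℕ) : ℤ)) (-1) =
        insert (-((n + 1 : ℕ) : ℤ)) (Finset.Icc (-(n : ℤ)) (-1)) := by
      ext x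
      simp only [Finset.mem_Icc, Finset.mem_insert]
      push_cast
      omega
    rw [h, Finset.sum_insert (by
      simp only [Finset.mem_Icc]
      push_cast
      omega), ih]
    have e : -((n + 1 : ℕ) : ℤ) + 1 = -(n : ℤ) := by push_cast; ring
    rw [e]
    ring

theorem main : S_TELW := by
  intro q S θ W hW hadj
  -- the identity for the restricted flux
  have key : ∀ z : Fin 4 → ℤ, z 1 = 0 →
      fW W θ (z + ev ℤ 1) 0 2 - fW W θ z 0 2 =
        (fW W θ (z + ev ℤ 0) 1 2 - fW W θ z 1 2) + (fW W θ (z + ev ℤ 2) 0 1 - fW W θ z 0 1) := by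
    intro z hz
    by_cases hne : ∃ w ∈ W, adj w z ∧ adj w (z + ev ℤ 0) ∧ adj w (z + ev ℤ 1) ∧
        adj w (z + ev ℤ 2)
    · obtain ⟨w, hw, h0, h1, h2, h3⟩ := hne
      have hA : ∀ a : Fin 4 → ℤ, adj w a → a 1 = 0 → ∀ i j : Fin 4, i < j →
          fW W θ a i j = fl θ a i j := by
        intro a ha h i j hij
        unfold fW
        split_ifs with h4
        · rfl
        · exact ((hadj w hw a ha h4).1 h i j hij).symm
      have hB : fW W θ (z + ev ℤ 1) 0 2 = fl θ (z + ev ℤ 1) 0 2 := by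
        unfold fW
        split_ifs with h4
        · rfl
        · refine ((hadj w hw _ h2 h4).2 ?_ 0 2 (by decide) (by decide) (by decide)).symm
          simp [ev_apply, hz]
      rw [hB, hA z h0 hz 0 2 (by decide), hA z h0 hz 1 2 (by decide), hA z h0 hz 0 1 (by decide),
        hA (z + ev ℤ 0) h1 (by simp [ev_apply, hz]) 1 2 (by decide),
        hA (z + ev ℤ 2) h3 (by simp [ev_apply, hz]) 0 1 (by decide)]
      have := bianchi θ z 0 1 2
      linear_combination -this
    · have hN : ∀ a : Fin 4 → ℤ, (∀ i, a i = z i ∨ a i = z i + 1) → a ∉ W := by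
        intro a ha haW
        apply hne
        have hk : ∀ k, adj a (z + ev ℤ k) := by
          intro k i
          rw [abs_le]
          simp only [Pi.add_apply, ev_apply]
          rcases ha i with h | h <;> rw [h] <;> split_ifs <;> constructor <;> omega
        refine ⟨a, haW, ?_, hk _, hk _, hk _⟩
        intro i
        rw [abs_le]
        rcases ha i with h | h <;> rw [h] <;> constructor <;> omega
      have n0 : z ∉ W := hN z (fun i => Or.inl rfl)
      have n1 : ∀ k, z + ev ℤ k ∉ W := fun k => hN _ (fun i => by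
        simp only [Pi.add_apply, ev_apply]
        split_ifs
        · exact Or.inr rfl
        · exact Or.inl (add_zero _))
      simp [fW, n0, n1]
  -- coordinates
  have c1 : ∀ t s : ℤ, (![t, 0, s, 0] : Fin 4 → ℤ) + ev ℤ 1 = ![t, 1, s, 0] := by
    intro t s
    funext i
    fin_cases i <;> simp [ev_apply]
  have c0 : ∀ t s : ℤ, (![t, 0, s, 0] : Fin 4 → ℤ) + ev ℤ 0 = ![t + 1, 0, s, 0] := by
    intro t s
    funext i
    fin_cases i <;> simp [ev_apply]
  have c2 : ∀ t s : ℤ, (![t, 0, s, 0] : Fin 4 → ℤ) + ev ℤ 2 = ![t, 0, s + 1, 0] := by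
    intro t s
    funext i
    fin_cases i <;> simp [ev_apply]
  have hstep : ∀ t s : ℤ, fW W θ ![t, 1, s, 0] 0 2 - fW W θ ![t, 0, s, 0] 0 2 =
      (fW W θ ![t + 1, 0, s, 0] 1 2 - fW W θ ![t, 0, s, 0] 1 2) +
        (fW W θ ![t, 0, s + 1, 0] 0 1 - fW W θ ![t, 0, s, 0] 0 1) := by
    intro t s
    have h := key ![t, 0, s, 0] (by simp)
    rwa [c1, c0, c2] at h
  rcases le_total S 0 with hS | hS
  · have hE : Finset.Icc (-S) (-1) = ∅ := by
      rw [Finset.Icc_eq_empty]
      omega
    rw [hE]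
    simp
  · obtain ⟨n, rfl⟩ := Int.eq_ofNat_of_zero_le hS
    simp_rw [hstep]
    simp_rw [Finset.sum_add_distrib]
    rw [Finset.sum_comm]
    have z1 : ∀ s ∈ Finset.Icc (-(n : ℤ)) (-1), ∑ t ∈ Finset.Icc (-(n : ℤ)) (-1),
        (fW W θ ![t + 1, 0, s, 0] 1 2 - fW W θ ![t, 0, s, 0] 1 2) = 0 := by
      intro s _
      rw [tele (fun t => fW W θ ![t, 0, s, 0] 1 2) n]
      have a1 : fW W θ ![0, 0, s, 0] 1 2 = 0 := by
        unfold fW
        rw [if_neg]
        intro h
        have := (hW _ h).2.1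
        simp at this
      have a2 : fW W θ ![-(n : ℤ), 0, s, 0] 1 2 = 0 := by
        unfold fW
        rw [if_neg]
        intro h
        have := (hW _ h).1
        simp at this
      simp only [a1, a2, sub_zero]
    rw [Finset.sum_congr rfl z1, Finset.sum_const_zero, zero_add]
    refine Finset.sum_congr rfl fun t _ => ?_
    rw [tele (fun s => fW W θ ![t, 0, s, 0] 0 1) n]
    have a2 : fW W θ ![t, 0, -(n : ℤ), 0] 0 1 = 0 := by
      unfold fW
      rw [if_neg]
      intro h
      have := (hW _ h).2.2.1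
      simp at this
    simp only [a2, sub_zero]

end Pool.Agent.N232.ZS
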